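import Pool.Agent.BEX.F.Defs

/-!
RAT, half plane: numbers of stopped bridges and of avoiding pairs of stopped bridges with given numbers of vertices.

Words as in BEX/F: `Sp N` = bridges (of any width) of at least `N` columns without renewal level in `[N, number of columns)`,
`Q1 W W'` = the walks meet only at their common start. A word `W` has `W.length + 1` vertices.
-/

namespace Pool.Agent.RAT

open Pool.Agent.BEX.F

/-- The number of stopped bridges with `k` vertices. -/
noncomputable def sn (N k : ℕ) : ℕ := Nat.card {W : List Bool // Sp N W ∧ W.length + 1 = k}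

/-- The number of avoiding pairs of stopped bridges with `k` and `l` vertices. -/
noncomputable def av (N k l : ℕ) : ℕ :=
  Nat.card {p : List Bool × List Bool // Sp N p.1 ∧ Sp N p.2 ∧ Q1 p.1 p.2 ∧ p.1.length + 1 = k ∧ p.2.length + 1 = l}

lemma len_finite (k : ℕ) : {W : List Bool | W.length + 1 = k}.Finite :=
  (List.finite_length_eq Bool (k - 1)).subset fun W h => by
    simp only [Set.mem_ofPred_eq] at h ⊢
    omega

lemma sn_finite (N k : ℕ) : {W : List Bool | Sp N W ∧ W.length + 1 = k}.Finite :=
  (len_finite k).subset fun _ h => h.2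

lemma av_finite (N k l : ℕ) : {p : List Bool × List Bool | Sp N p.1 ∧ Sp N p.2 ∧ Q1 p.1 p.2 ∧
    p.1.length + 1 = k ∧ p.2.length + 1 = l}.Finite :=
  ((len_finite k).prod (len_finite l)).subset fun _ h => ⟨h.2.2.2.1, h.2.2.2.2⟩

lemma sn_eq (N k : ℕ) : sn N k = {W : List Bool | Sp N W ∧ W.length + 1 = k}.ncard := rfl

lemma av_eq (N k l : ℕ) : av N k l = {p : List Bool × List Bool | Sp N p.1 ∧ Sp N p.2 ∧ Q1 p.1 p.2 ∧
    p.1.length + 1 = k ∧ p.2.length + 1 = l}.ncard := rfl

end Pool.Agent.RAT
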