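import Pool.Agent.RAT.D.Defs
import Pool.Agent.RAT.H.SnDef
import Pool.Agent.HHP.Lib

/-!
RAT/H: half-plane walks as words of turns (`HHP/Defs`), the number of stopped bridges, pairs.
-/

namespace Pool.Agent.RAT

open Pool.Agent.Hhelper14.SAW Pool.Agent.HHP Pool.Agent.BEX.F

/-- Words of half-plane walks with `n` steps. -/
def HwN (n : ℕ) (X : List Bool) : Prop := X.length = n ∧ (V X).Nodup ∧ ∀ z ∈ V X, 0 ≤ F0 z

/-- The stopped bridges (first renewal level `≥ N`) with `k` vertices. -/
def SpS (N k : ℕ) : Set (List Bool) := {X | Sp N X ∧ X.length + 1 = k}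

/-- The pairs of stopped bridges with `k`, `l` vertices which have only the start in common. -/
def AvS (N k l : ℕ) : Set (List Bool × List Bool) :=
  {p | Sp N p.1 ∧ Sp N p.2 ∧ Q1 p.1 p.2 ∧ p.1.length + 1 = k ∧ p.2.length + 1 = l}

lemma sn_SpS (N k : ℕ) : sn N k = (SpS N k).ncard := rfl

lemma av_AvS (N k l : ℕ) : av N k l = (AvS N k l).ncard := rfl

lemma words_finite (n : ℕ) : {X : List Bool | X.length = n}.Finite := List.finite_length_eq Bool n

lemma hw_finite (n : ℕ) : {X | HwN n X}.Finite := (words_finite n).subset fun _ h => h.1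

lemma SpS_finite (N k : ℕ) : (SpS N k).Finite :=
  (words_finite (k - 1)).subset fun X h => by
    have h1 := h.2
    show X.length = k - 1
    omega

lemma AvS_finite (N k l : ℕ) : (AvS N k l).Finite :=
  ((SpS_finite N k).prod (SpS_finite N l)).subset fun _ h => ⟨⟨h.1, h.2.2.2.1⟩, h.2.1, h.2.2.2.2⟩

private lemma Words_hp : Dom (fun z : ℤ × ℤ => hon z ∧ 0 ≤ F0 z) := by
  refine ⟨⟨by decide, by decide⟩, fun x h => h.1, fun x h => ?_⟩
  have := h.2
  simp only [slit, F0] at *
  omega

private lemma Words_symm {x y : ℤ × ℤ} (h : Adj x y) : Adj y x := by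
  obtain ⟨h1, h2, h3⟩ := h
  refine ⟨h2, h1, ?_⟩
  obtain ⟨a, b⟩ := x
  obtain ⟨c, d⟩ := y
  simp only [U, Prod.mk_sub_mk] at h3 ⊢
  omega

lemma hw_walk {n : ℕ} {X : List Bool} (h : HwN n X) : (V X).reverse ∈ W true n := by
  obtain ⟨h1, h2, h3⟩ := h
  have hs := isSaw_toL Words_hp h2 fun z hz => ⟨V_hon hz, h3 z hz⟩
  refine ⟨⟨?_, List.nodup_reverse.2 h2, ?_, ?_⟩, ?_⟩
  · rw [List.length_reverse]
    unfold V
    rw [vs_length, h1]
  · have h4 := hs.2.2.1
    unfold toL at h4
    exact (List.isChain_append.1 h4).1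
  · rw [List.getLast?_reverse]
    unfold V
    rw [vs_head?]
    rfl
  · intro z hz _
    exact h3 z (List.mem_reverse.1 hz)

lemma walk_hw {n : ℕ} {P : List (ℤ × ℤ)} (h : P ∈ W true n) : ∃ X, HwN n X ∧ (V X).reverse = P := by
  obtain ⟨⟨hlen, hn, hc, hl⟩, hd⟩ := h
  have hon' := hon_of_walk ⟨hlen, hn, hc, hl⟩
  have hp : ∀ x ∈ P, hon x ∧ 0 ≤ F0 x := fun x hx => ⟨hon' x hx, hd x hx rfl⟩
  have hne : P ≠ [] := by
    rintro rfl
    simp at hlen
  have hs : IsSaw (fun z => hon z ∧ 0 ≤ F0 z) n (P ++ [o']) := by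
    refine ⟨by simp [hlen], ?_, ?_, P.dropLast, ?_, ?_⟩
    · rw [List.nodup_append]
      refine ⟨hn, by simp, ?_⟩
      intro x hx y hy hxy
      rw [List.mem_singleton] at hy
      have h3 := (hp x hx).2
      rw [hxy, hy] at h3
      revert h3
      decide
    · refine List.isChain_append.2 ⟨hc, by simp, ?_⟩
      intro x hx y hy
      rw [hl, Option.mem_def, Option.some.injEq] at hx
      simp only [List.head?_cons, Option.mem_def, Option.some.injEq] at hy
      rw [← hx, ← hy]
      exact adj_o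
    · have h4 : P = P.dropLast ++ [o] := by
        have h5 := List.dropLast_append_getLast hne
        have h6 : P.getLast hne = o := by
          have := List.getLast?_eq_getLast_of_ne_nil hne
          rw [hl, Option.some.injEq] at this
          exact this.symm
        rw [h6] at h5
        exact h5.symm
      conv_lhs => rw [h4]
      simp
    · intro x hx
      apply hp
      rcases List.mem_append.1 hx with hx | hx
      · exact List.mem_of_mem_dropLast hx
      · rw [List.mem_singleton] at hx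
        rw [hx]
        exact List.mem_of_getLast? hl
  obtain ⟨X, h5, h6, h7, h8⟩ := toL_surj Words_hp hs
  refine ⟨X, ⟨h5, h6, fun z hz => (h7 z hz).2⟩, ?_⟩
  unfold toL at h8
  exact List.append_cancel_right h8

lemma V_inj {X Y : List Bool} (h : V X = V Y) : X = Y := by
  apply toL_inj
  unfold toL
  rw [h]

theorem cn_true (n : ℕ) : cn true n = Set.ncard {X | HwN n X} := by
  have h1 : cn true n = (W true n).ncard := by
    unfold cn WF
    exact (Set.ncard_eq_toFinset_card _ (W_finite true n)).symm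
  rw [h1]
  have h2 : W true n = (fun X => (V X).reverse) '' {X | HwN n X} := by
    ext P
    constructor
    · intro h
      obtain ⟨X, h3, h4⟩ := walk_hw h
      exact ⟨X, h3, h4⟩
    · rintro ⟨X, h3, rfl⟩
      exact hw_walk h3
  rw [h2]
  exact Set.ncard_image_of_injective _ fun X Y h => V_inj (List.reverse_injective h)

/-- The pairs of `RAT/D/Defs` in words. -/
theorem dn_words (k l : ℕ) : dn k l =
    Set.ncard {p : List Bool × List Bool | HwN k p.1 ∧ HwN l p.2 ∧ Q1 p.1 p.2} := by
  unfold dn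
  have h2 : PD k l = (Prod.map (fun X => (V X).reverse) (fun X => (V X).reverse)) ''
      {p : List Bool × List Bool | HwN k p.1 ∧ HwN l p.2 ∧ Q1 p.1 p.2} := by
    ext ⟨P, P'⟩
    constructor
    · rintro ⟨h1, h2, h3⟩
      obtain ⟨X, hX, rfl⟩ := walk_hw h1
      obtain ⟨Y, hY, rfl⟩ := walk_hw h2
      refine ⟨(X, Y), ⟨hX, hY, ?_⟩, rfl⟩
      intro z hz hz'
      by_contra hne
      exact h3 z (List.mem_reverse.2 hz) hne (List.mem_reverse.2 hz')
    · rintro ⟨⟨X, Y⟩, ⟨hX, hY, hQ⟩, h⟩
      simp only [Prod.map_apply, Prod.mk.injEq] at h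
      obtain ⟨rfl, rfl⟩ := h
      refine ⟨hw_walk hX, hw_walk hY, ?_⟩
      intro z hz hne hz'
      exact hne (hQ z (List.mem_reverse.1 hz) (List.mem_reverse.1 hz'))
  rw [h2]
  refine Set.ncard_image_of_injective _ ?_
  refine Function.Injective.prodMap ?_ ?_ <;>
    exact fun X Y h => V_inj (List.reverse_injective h)

end Pool.Agent.RAT
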