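import Pool.Agent.RAT.H.SnDef
import Pool.Agent.BEX.F.Sharp
import Pool.Agent.PLY.Main

/-!
RAT, half plane, (C3): masses of stopped bridges and of avoiding pairs as finite sums of real numbers.

* `sn_sum_le`: `∑ k ≤ K, s N k x_c^k ≤ 1`.
* `sn_tail'`: `1 - C N^(3/4) K^(-1/5) ≤ ∑ k ≤ K, s N k x_c^k`.
* `av_sum_le`: `∑ av N k l x_c^(k+l) ≤ C N^(-3/4)`.

PAPER PROOF OF THE TAIL. A stopped bridge with more than `K` vertices either has more than `L = N + M` columns: mass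
`∑ j < N, b_j Lam(L - j) ≤ U(N - 1) Lam(M) ≤ C (N/M)^(3/4)`; or is a bridge of at most `L` columns with at least `K` turns: mass
`≤ ∑ T < L, 100 (T + 1)^2/(K + 1) ≤ 100 L^3/K` (`long_le`). If `N ≥ M` the bound is trivial, otherwise `L ≤ 2M`;
`M = ⌈K^(4/15)⌉`.
-/

namespace Pool.Agent.RAT

open Pool.Agent.Hhelper14.SAW Pool.Agent.HHP Pool.Agent.HEP Pool.Agent.BEX.F
open scoped ENNReal
open Finset

/-- The sum of an indicator over a finite set. -/
private lemma tsum_ind {α : Type*} {Q : α → Prop} (h : {a | Q a}.Finite) :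
    ∑' a, ind (Q a) = (Nat.card {a // Q a} : ℝ≥0∞) := by
  classical
  have : Fintype {a // Q a} := h.fintype
  have h1 : ∑' a : {a // Q a}, (1 : ℝ≥0∞) = ∑' a, Set.indicator {a | Q a} (fun _ => (1 : ℝ≥0∞)) a :=
    tsum_subtype {a | Q a} (fun _ => (1 : ℝ≥0∞))
  have h2 : ∀ a, ind (Q a) = Set.indicator {a | Q a} (fun _ => (1 : ℝ≥0∞)) a := by
    intro a
    by_cases hq : Q a
    · rw [Set.indicator_of_mem (by exact hq), ind_true hq]
    · rw [Set.indicator_of_notMem (by exact hq), ind_false hq]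
  rw [tsum_congr h2, ← h1, tsum_fintype, Finset.sum_const, Finset.card_univ, nsmul_eq_mul, mul_one,
    Nat.card_eq_fintype_card]

private lemma ms_ind (y : ℝ≥0∞) (A : List Bool → Prop) :
    ms y A = ∑' W : List Bool, ind (A W) * y ^ (W.length + 1) := by
  unfold ms
  refine (tsum_subtype {W : List Bool | A W} (fun W => y ^ (W.length + 1))).trans (tsum_congr fun W => ?_)
  by_cases h : A W
  · rw [Set.indicator_of_mem (by exact h), ind_true h, one_mul]
  · rw [Set.indicator_of_notMem (by exact h), ind_false h, zero_mul]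

private lemma ms2_ind (y : ℝ≥0∞) (A : List Bool × List Bool → Prop) :
    ms2 y A = ∑' p : List Bool × List Bool, ind (A p) * (y ^ (p.1.length + 1) * y ^ (p.2.length + 1)) := by
  unfold ms2
  refine (tsum_subtype {p : List Bool × List Bool | A p}
    (fun p => y ^ (p.1.length + 1) * y ^ (p.2.length + 1))).trans (tsum_congr fun p => ?_)
  by_cases h : A p
  · rw [Set.indicator_of_mem (by exact h), ind_true h, one_mul]
  · rw [Set.indicator_of_notMem (by exact h), ind_false h, zero_mul]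

/-- Words with at most `K` vertices. -/
private lemma short_eq (y : ℝ≥0∞) (N K : ℕ) :
    ms y (fun W => Sp N W ∧ W.length + 1 ≤ K) = ∑ k ∈ range (K + 1), (sn N k : ℝ≥0∞) * y ^ k := by
  rw [ms_ind]
  have h1 : ∀ W : List Bool, ind (Sp N W ∧ W.length + 1 ≤ K) * y ^ (W.length + 1) =
      ∑ k ∈ range (K + 1), ind (Sp N W ∧ W.length + 1 = k) * y ^ k := by
    intro W
    by_cases h : Sp N W ∧ W.length + 1 ≤ K
    · rw [ind_true h, one_mul, Finset.sum_eq_single (W.length + 1)]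
      · rw [ind_true ⟨h.1, rfl⟩, one_mul]
      · intro k _ hk
        rw [ind_false fun h' => hk h'.2.symm, zero_mul]
      · intro h'
        exact absurd (Finset.mem_range.2 (by omega)) h'
    · rw [ind_false h, zero_mul]
      refine (Finset.sum_eq_zero fun k hk => ?_).symm
      rw [Finset.mem_range] at hk
      rw [ind_false fun h' => h ⟨h'.1, by omega⟩, zero_mul]
  rw [tsum_congr h1, Summable.tsum_finsetSum (fun _ _ => ENNReal.summable)]
  refine Finset.sum_congr rfl fun k _ => ?_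
  rw [ENNReal.tsum_mul_right, tsum_ind (sn_finite N k)]
  rfl

private lemma to_real (N K : ℕ) : ENNReal.ofReal (∑ k ∈ range (K + 1), (sn N k : ℝ) * xc ^ k) =
    ms xE (fun W => Sp N W ∧ W.length + 1 ≤ K) := by
  rw [short_eq, ENNReal.ofReal_sum_of_nonneg fun k _ => by have := xc_pos; positivity]
  refine Finset.sum_congr rfl fun k _ => ?_
  rw [ENNReal.ofReal_mul (Nat.cast_nonneg _), ENNReal.ofReal_natCast, ENNReal.ofReal_pow xc_pos.le]
  rfl

private lemma ms_mono' {y : ℝ≥0∞} {A A' : List Bool → Prop} (h : ∀ W, A W → A' W) : ms y A ≤ ms y A' := by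
  rw [ms_ind, ms_ind]
  exact ENNReal.tsum_le_tsum fun W => mul_le_mul' (ind_mono (h W)) le_rfl

private lemma ms_or {y : ℝ≥0∞} {A A' A'' : List Bool → Prop} (h : ∀ W, A W → A' W ∨ A'' W) : ms y A ≤ ms y A' + ms y A'' := by
  rw [ms_ind, ms_ind, ms_ind, ← ENNReal.tsum_add]
  refine ENNReal.tsum_le_tsum fun W => ?_
  rw [← add_mul]
  exact mul_le_mul' ((ind_mono (h W)).trans (ind_or_le _ _)) le_rfl

private lemma ms_ex {y : ℝ≥0∞} {A : List Bool → Prop} {L : ℕ} {B : ℕ → List Bool → Prop}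
    (h : ∀ W, A W → ∃ k < L, B k W) : ms y A ≤ ∑ k ∈ range L, ms y (B k) := by
  have h1 : ms y A ≤ ∑' W : List Bool, ∑ k ∈ range L, ind (B k W) * y ^ (W.length + 1) := by
    rw [ms_ind]
    refine ENNReal.tsum_le_tsum fun W => ?_
    by_cases hA : A W
    · obtain ⟨k, hk, hB⟩ := h W hA
      refine le_trans ?_ (Finset.single_le_sum (f := fun k => ind (B k W) * y ^ (W.length + 1))
        (fun _ _ => bot_le) (Finset.mem_range.2 hk))
      rw [ind_true hB]
      exact mul_le_mul' (ind_le_one _) le_rfl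
    · rw [ind_false hA, zero_mul]
      exact bot_le
  refine h1.trans (le_of_eq ?_)
  rw [Summable.tsum_finsetSum (fun _ _ => ENNReal.summable)]
  exact Finset.sum_congr rfl fun k _ => (ms_ind _ _).symm

/-- The finite sums of the masses of stopped bridges are at most `1`. -/
theorem sn_sum_le {N : ℕ} (hN : 1 ≤ N) (K : ℕ) : ∑ k ∈ range (K + 1), (sn N k : ℝ) * xc ^ k ≤ 1 := by
  rw [← ENNReal.ofReal_le_one, to_real, ← Sp_total hN]
  exact ms_mono' fun _ h => h.1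

private lemma bij {A : List Bool → Prop} {A' : List Blk → Prop} (h0 : ∀ l, A' l → l ≠ [])
    (h1 : ∀ l, l ≠ [] → (A (jn l) ↔ A' l)) (h2 : ∀ W, A W → ∃ k, Br k W) :
    ms xE A = ∑' l : List Blk, ind (A' l) * wj l := by
  classical
  unfold ms
  let φ : {l : List Blk // A' l} → {W : List Bool // A W} := fun l => ⟨jn l.1, (h1 l.1 (h0 _ l.2)).2 l.2⟩
  have hφ : Function.Bijective φ := by
    constructor
    · intro l l' h
      exact Subtype.ext (jn_inj (h0 _ l.2) (h0 _ l'.2) (congrArg Subtype.val h))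
    · rintro ⟨W, hW⟩
      obtain ⟨k, hk⟩ := h2 W hW
      obtain ⟨l, hl, h3, h4⟩ := jn_surj hk
      exact ⟨⟨l, (h1 l hl).1 (by rw [h3]; exact hW)⟩, Subtype.ext h3⟩
  rw [← (Equiv.ofBijective φ hφ).tsum_eq]
  have h3 : ∀ l : {l : List Blk // A' l},
      xE ^ (((Equiv.ofBijective φ hφ) l).1.length + 1) = wj l.1 := fun l => (jn_length (h0 _ l.2)).symm
  rw [tsum_congr h3]
  refine (tsum_subtype {l : List Blk | A' l} wj).trans (tsum_congr fun l => ?_)
  by_cases h : A' l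
  · rw [Set.indicator_of_mem (by exact h), ind_true h, one_mul]
  · rw [Set.indicator_of_notMem (by exact h), ind_false h, zero_mul]

private lemma rev_h (l : List Blk) : hj l.reverse = hj l := by
  unfold hj
  rw [List.map_reverse, List.sum_reverse]

private lemma rev_w (l : List Blk) : wj l.reverse = wj l := by
  unfold wj
  rw [List.map_reverse, List.prod_reverse]

private lemma snoc_h (l : List Blk) (c : Blk) : hj (l ++ [c]) = hj l + htw c.1 := by
  rw [hj_append, hj_cons, hj_nil, add_zero]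

/-- Stopped bridges of more than `N + M` columns. -/
private lemma high_le {N : ℕ} (hN : 1 ≤ N) (M : ℕ) :
    ms xE (fun W => Sp N W ∧ ∃ k, Br k W ∧ N + M ≤ k) ≤ (hs 1).U (N - 1) * (hs 1).Lam M := by
  have h0 : ∀ l : List Blk, (StB N l ∧ N + M < hj l) → l ≠ [] := by
    rintro l ⟨h, -⟩ rfl
    have h1 := h.1
    rw [hj_nil] at h1
    omega
  rw [bij (A' := fun l => StB N l ∧ N + M < hj l) h0]
  · have e1 : ∑' l : List Blk, ind (StB N l ∧ N + M < hj l) * wj l =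
        ∑' l : List Blk, ind (StB N l.reverse ∧ N + M < hj l.reverse) * wj l.reverse := by
      let e : List Blk ≃ List Blk := ⟨List.reverse, List.reverse, List.reverse_reverse, List.reverse_reverse⟩
      exact (e.tsum_eq (fun l => ind (StB N l ∧ N + M < hj l) * wj l)).symm
    rw [e1, Alph.tsum_list (fun l : List Blk => ind (StB N l.reverse ∧ N + M < hj l.reverse) * wj l.reverse)]
    have e2 : ind (StB N ([] : List Blk).reverse ∧ N + M < hj ([] : List Blk).reverse) * wj ([] : List Blk).reverse = 0 := by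
      rw [List.reverse_nil, ind_false (fun h => h0 _ h rfl), zero_mul]
    rw [e2, zero_add, ENNReal.tsum_comm]
    have e3 : ∀ l : List Blk, ∑' c : Blk, ind (StB N (c :: l).reverse ∧ N + M < hj (c :: l).reverse) * wj (c :: l).reverse ≤
        ind (hj l ≤ N - 1) * wj l * (hs 1).Lam M := by
      intro l
      have : (hs 1).Lam M = ∑' c : Blk, ind (M < htw c.1) * xE ^ (c.1.length + 1) := rfl
      rw [this, ← ENNReal.tsum_mul_left]
      refine ENNReal.tsum_le_tsum fun c => ?_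
      rw [rev_w, wj_cons]
      have hi : ind (StB N (c :: l).reverse ∧ N + M < hj (c :: l).reverse) ≤ ind (hj l ≤ N - 1) * ind (M < htw c.1) := by
        rw [← ind_and]
        refine ind_mono fun h => ?_
        obtain ⟨h3, h4⟩ := h
        unfold StB at h3
        rw [List.reverse_cons, List.dropLast_concat, snoc_h, rev_h] at h3
        rw [List.reverse_cons, snoc_h, rev_h] at h4
        omega
      calc _ ≤ ind (hj l ≤ N - 1) * ind (M < htw c.1) * (xE ^ (c.1.length + 1) * wj l) := mul_le_mul' hi le_rfl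
        _ = _ := by ring
    refine (ENNReal.tsum_le_tsum e3).trans (le_of_eq ?_)
    rw [ENNReal.tsum_mul_right]
    congr 1
    have e4 : ∀ l : List Blk, ind (hj l ≤ N - 1) * wj l = ∑ k ∈ range (N - 1 + 1), ind (hj l = k) * wj l := by
      intro l
      by_cases h : hj l ≤ N - 1
      · rw [ind_true h, one_mul, Finset.sum_eq_single (hj l)]
        · rw [ind_true rfl, one_mul]
        · intro k _ hk
          rw [ind_false fun h' => hk h'.symm, zero_mul]
        · intro h'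
          exact absurd (Finset.mem_range.2 (by omega)) h'
      · rw [ind_false h, zero_mul]
        refine (Finset.sum_eq_zero fun k hk => ?_).symm
        rw [Finset.mem_range] at hk
        rw [ind_false fun h' => h (by omega), zero_mul]
    rw [tsum_congr e4, Summable.tsum_finsetSum (fun _ _ => ENNReal.summable)]
    rfl
  · intro l hl
    rw [Sp_iff hN hl]
    refine and_congr_right fun _ => ?_
    have hb := jn_Br hl
    have hp := hj_pos hl
    constructor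
    · rintro ⟨k, hk, h⟩
      have h3 := hk.2
      have h4 := hb.2
      omega
    · intro h
      exact ⟨_, hb, by omega⟩
  · rintro W ⟨-, k, hk, -⟩
    exact ⟨k, hk⟩

/-- Bridges of at most `L` columns with many vertices. -/
private lemma low_le (L K : ℕ) : ∑ k ∈ range L, ms xE (fun W => Br k W ∧ K ≤ W.length) ≤
    ENNReal.ofReal (100 * (L : ℝ) ^ 3 / ((K : ℝ) + 1)) := by
  calc ∑ k ∈ range L, ms xE (fun W => Br k W ∧ K ≤ W.length)
      ≤ ∑ _k ∈ range L, ENNReal.ofReal (100 * (L : ℝ) ^ 2 / ((K : ℝ) + 1)) := by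
        refine Finset.sum_le_sum fun k hk => (long_le k K).trans (ENNReal.ofReal_le_ofReal ?_)
        rw [Finset.mem_range] at hk
        have : (k : ℝ) + 1 ≤ L := by exact_mod_cast hk
        gcongr
    _ = ENNReal.ofReal (100 * (L : ℝ) ^ 3 / ((K : ℝ) + 1)) := by
        rw [Finset.sum_const, Finset.card_range, nsmul_eq_mul, ← ENNReal.ofReal_natCast,
          ← ENNReal.ofReal_mul (Nat.cast_nonneg _)]
        congr 1
        ring

/-- The tail in `[0, ∞]`: many columns, or a bridge of few columns with many vertices. -/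
theorem tail_ex : ∃ C : ℝ, 0 < C ∧ ∀ N M K : ℕ, 1 ≤ N → 1 ≤ M →
    (1 : ℝ≥0∞) ≤ ENNReal.ofReal (∑ k ∈ range (K + 1), (sn N k : ℝ) * xc ^ k) +
      (ENNReal.ofReal (C * ((N : ℝ) / M) ^ (3 / 4 : ℝ)) + ∑ k ∈ range (N + M), ms xE (fun W => Br k W ∧ K ≤ W.length)) := by
  obtain ⟨C1, hC1, h1⟩ := (hs_quarter 1).U_le
  obtain ⟨C2, hC2, h2⟩ := (hs_quarter 1).Lam_le (hs_anti 1)
  refine ⟨C1 * C2, by positivity, fun N M K hN hM => ?_⟩
  have hNr : (1 : ℝ) ≤ N := by exact_mod_cast hN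
  have hMr : (1 : ℝ) ≤ M := by exact_mod_cast hM
  rw [to_real]
  refine le_trans (le_of_eq (Sp_total hN).symm) ?_
  refine (ms_or (A' := fun W => Sp N W ∧ W.length + 1 ≤ K) (A'' := fun W => Sp N W ∧ K ≤ W.length) ?_).trans
    (add_le_add le_rfl ?_)
  · intro W h
    rcases Nat.lt_or_ge W.length K with h' | h'
    · exact Or.inl ⟨h, h'⟩
    · exact Or.inr ⟨h, h'⟩
  · refine (ms_or (A' := fun W => Sp N W ∧ ∃ k, Br k W ∧ N + M ≤ k)
      (A'' := fun W => ∃ k < N + M, Br k W ∧ K ≤ W.length) ?_).trans (add_le_add ?_ ?_)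
    · rintro W ⟨h, hl⟩
      obtain ⟨k, hk, -⟩ := id h
      rcases Nat.lt_or_ge k (N + M) with h' | h'
      · exact Or.inr ⟨k, h', hk, hl⟩
      · exact Or.inl ⟨h, k, hk, h'⟩
    · refine (high_le hN M).trans ?_
      refine (mul_le_mul' (h1 (N - 1)) (h2 M)).trans ?_
      rw [← ENNReal.ofReal_mul (by positivity)]
      refine ENNReal.ofReal_le_ofReal ?_
      have e : ((N - 1 : ℕ) : ℝ) + 1 = N := by
        rw [Nat.cast_sub hN]; push_cast; ring
      rw [e, Real.div_rpow (by positivity) (by positivity)]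
      have e2 : ((M : ℝ) + 1) ^ (-(3 / 4) : ℝ) ≤ ((M : ℝ) ^ (3 / 4 : ℝ))⁻¹ := by
        rw [← Real.rpow_neg (by positivity)]
        exact Real.rpow_le_rpow_of_nonpos (by positivity) (by linarith) (by norm_num)
      calc C1 * (N : ℝ) ^ (3 / 4 : ℝ) * (C2 * ((M : ℝ) + 1) ^ (-(3 / 4) : ℝ))
          ≤ C1 * (N : ℝ) ^ (3 / 4 : ℝ) * (C2 * ((M : ℝ) ^ (3 / 4 : ℝ))⁻¹) := by gcongr
        _ = _ := by rw [div_eq_mul_inv]; ring
    · exact ms_ex (B := fun k W => Br k W ∧ K ≤ W.length) (L := N + M) fun W h => h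

private lemma tail_real : ∃ C : ℝ, 0 < C ∧ ∀ N M K : ℕ, 1 ≤ N → 1 ≤ M → N ≤ M → 1 ≤ K →
    1 - (C * ((N : ℝ) / M) ^ (3 / 4 : ℝ) + 800 * (M : ℝ) ^ 3 / K) ≤ ∑ k ∈ range (K + 1), (sn N k : ℝ) * xc ^ k := by
  obtain ⟨C, hC, h⟩ := tail_ex
  refine ⟨C, hC, fun N M K hN hM hNM hK => ?_⟩
  have hNr : (1 : ℝ) ≤ N := by exact_mod_cast hN
  have hMr : (1 : ℝ) ≤ M := by exact_mod_cast hM
  have hKr : (1 : ℝ) ≤ K := by exact_mod_cast hK
  have hNMr : (N : ℝ) ≤ M := by exact_mod_cast hNM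
  have hS := h N M K hN hM
  have hL : ∑ k ∈ range (N + M), ms xE (fun W => Br k W ∧ K ≤ W.length) ≤ ENNReal.ofReal (800 * (M : ℝ) ^ 3 / K) := by
    refine (low_le (N + M) K).trans (ENNReal.ofReal_le_ofReal ?_)
    push_cast
    have e3 : (N : ℝ) + M ≤ 2 * M := by linarith
    calc 100 * ((N : ℝ) + M) ^ 3 / ((K : ℝ) + 1) ≤ 100 * (2 * (M : ℝ)) ^ 3 / K := by
          gcongr
          linarith
      _ = _ := by ring
  have hS' := hS.trans (add_le_add le_rfl (add_le_add le_rfl hL))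
  rw [← ENNReal.ofReal_add (by positivity) (by positivity), ← ENNReal.ofReal_add _ (by positivity),
    ENNReal.one_le_ofReal] at hS'
  · linarith
  · exact Finset.sum_nonneg fun k _ => by have := xc_pos; positivity

/-- The stopped bridges with at most `K` vertices have almost the full mass. -/
theorem sn_tail' : ∃ C : ℝ, 0 < C ∧ ∀ N K : ℕ, 1 ≤ N → 1 ≤ K →
    1 - C * (N : ℝ) ^ (3 / 4 : ℝ) * (K : ℝ) ^ (-(1 / 5) : ℝ) ≤ ∑ k ∈ range (K + 1), (sn N k : ℝ) * xc ^ k := by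
  obtain ⟨C, hC, h⟩ := tail_real
  refine ⟨C + 6400, by positivity, fun N K hN hK => ?_⟩
  have hNr : (1 : ℝ) ≤ N := by exact_mod_cast hN
  have hKr : (1 : ℝ) ≤ K := by exact_mod_cast hK
  have hpos : 0 ≤ ∑ k ∈ range (K + 1), (sn N k : ℝ) * xc ^ k :=
    Finset.sum_nonneg fun k _ => by have := xc_pos; positivity
  set t : ℝ := (K : ℝ) ^ (4 / 15 : ℝ) with ht
  have ht1 : 1 ≤ t := Real.one_le_rpow hKr (by norm_num)
  set M : ℕ := ⌈t⌉₊ with hMdef
  have hM1 : t ≤ M := Nat.le_ceil t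
  have hM2 : (M : ℝ) ≤ 2 * t := by
    have := Nat.ceil_lt_add_one (show 0 ≤ t by linarith)
    linarith
  have hMr : (1 : ℝ) ≤ M := ht1.trans hM1
  have hM : 1 ≤ M := by exact_mod_cast hMr
  have hN34 : (1 : ℝ) ≤ (N : ℝ) ^ (3 / 4 : ℝ) := Real.one_le_rpow hNr (by norm_num)
  have e1 : t ^ (3 / 4 : ℝ) = (K : ℝ) ^ (1 / 5 : ℝ) := by
    rw [ht, ← Real.rpow_mul (by positivity)]; norm_num
  have e2 : (K : ℝ) ^ (-(1 / 5) : ℝ) = ((K : ℝ) ^ (1 / 5 : ℝ))⁻¹ := Real.rpow_neg (by positivity) _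
  by_cases hNM : N ≤ M
  · refine le_trans ?_ (h N M K hN hM hNM hK)
    have h1 : ((N : ℝ) / M) ^ (3 / 4 : ℝ) ≤ (N : ℝ) ^ (3 / 4 : ℝ) * (K : ℝ) ^ (-(1 / 5) : ℝ) := by
      rw [Real.div_rpow (by positivity) (by positivity), div_eq_mul_inv, e2, ← e1]
      gcongr
    have h2 : (M : ℝ) ^ 3 / K ≤ 8 * (K : ℝ) ^ (-(1 / 5) : ℝ) := by
      have e3 : t ^ 3 / K = (K : ℝ) ^ (-(1 / 5) : ℝ) := by
        rw [ht, ← Real.rpow_natCast, ← Real.rpow_mul (by positivity), div_eq_mul_inv, ← Real.rpow_neg_one (K : ℝ),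
          ← Real.rpow_add (by positivity)]
        norm_num
      calc (M : ℝ) ^ 3 / K ≤ (2 * t) ^ 3 / K := by gcongr
        _ = 8 * (t ^ 3 / K) := by ring
        _ = _ := by rw [e3]
    have h3 : (K : ℝ) ^ (-(1 / 5) : ℝ) ≤ (N : ℝ) ^ (3 / 4 : ℝ) * (K : ℝ) ^ (-(1 / 5) : ℝ) :=
      le_mul_of_one_le_left (by positivity) hN34
    have h4 := mul_le_mul_of_nonneg_left h1 hC.le
    calc 1 - (C + 6400) * (N : ℝ) ^ (3 / 4 : ℝ) * (K : ℝ) ^ (-(1 / 5) : ℝ)
        = 1 - (C * ((N : ℝ) ^ (3 / 4 : ℝ) * (K : ℝ) ^ (-(1 / 5) : ℝ)) +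
            6400 * ((N : ℝ) ^ (3 / 4 : ℝ) * (K : ℝ) ^ (-(1 / 5) : ℝ))) := by ring
      _ ≤ 1 - (C * ((N : ℝ) / M) ^ (3 / 4 : ℝ) + 800 * ((M : ℝ) ^ 3 / K)) := by linarith
      _ = _ := by ring
  · refine le_trans ?_ hpos
    have h1 : (M : ℝ) ≤ N := by exact_mod_cast (not_le.1 hNM).le
    have h2 : (K : ℝ) ^ (1 / 5 : ℝ) ≤ (N : ℝ) ^ (3 / 4 : ℝ) := by
      rw [← e1]
      exact Real.rpow_le_rpow (by linarith) (hM1.trans h1) (by norm_num)
    have h3 : 1 ≤ (N : ℝ) ^ (3 / 4 : ℝ) * (K : ℝ) ^ (-(1 / 5) : ℝ) := by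
      rw [e2, ← div_eq_mul_inv, one_le_div (by positivity)]
      exact h2
    nlinarith

/-- The same with `N` in the place of `N ^ (3 / 4)`. -/
theorem sn_tail : ∃ C : ℝ, 0 < C ∧ ∀ N K : ℕ, 1 ≤ N → 1 ≤ K →
    1 - C * N * (K : ℝ) ^ (-(1 / 5) : ℝ) ≤ ∑ k ∈ range (K + 1), (sn N k : ℝ) * xc ^ k := by
  obtain ⟨C, hC, h⟩ := sn_tail'
  refine ⟨C, hC, fun N K hN hK => le_trans ?_ (h N K hN hK)⟩
  have hNr : (1 : ℝ) ≤ N := by exact_mod_cast hN
  have h1 : (N : ℝ) ^ (3 / 4 : ℝ) ≤ N := by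
    calc (N : ℝ) ^ (3 / 4 : ℝ) ≤ (N : ℝ) ^ (1 : ℝ) := Real.rpow_le_rpow_of_exponent_le hNr (by norm_num)
      _ = N := Real.rpow_one _
  have h2 : (0 : ℝ) ≤ (K : ℝ) ^ (-(1 / 5) : ℝ) := by positivity
  have h3 := mul_le_mul_of_nonneg_right (mul_le_mul_of_nonneg_left h1 hC.le) h2
  linarith

/-- The finite sums of the masses of the avoiding pairs. -/
theorem av_sum_le : ∃ C : ℝ, 0 < C ∧ ∀ N : ℕ, 1 ≤ N → ∀ K L : ℕ,
    ∑ k ∈ range K, ∑ l ∈ range L, (av N k l : ℝ) * xc ^ (k + l) ≤ C * (N : ℝ) ^ (-(3 / 4) : ℝ) := by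
  obtain ⟨C, hC, h⟩ := upper_sharp full_hsI
  refine ⟨C, hC, fun N hN K L => ?_⟩
  have hx := xc_pos
  rw [← ENNReal.ofReal_le_ofReal_iff (by positivity)]
  refine le_trans ?_ (h N hN)
  rw [← PN_eq hN]
  unfold PN
  rw [ms2_ind, ENNReal.ofReal_sum_of_nonneg fun k _ => Finset.sum_nonneg fun l _ => by positivity]
  have h1 : ∀ k ∈ range K, ENNReal.ofReal (∑ l ∈ range L, (av N k l : ℝ) * xc ^ (k + l)) =
      ∑ l ∈ range L, ∑' p : List Bool × List Bool, ind (Sp N p.1 ∧ Sp N p.2 ∧ Q1 p.1 p.2 ∧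
        p.1.length + 1 = k ∧ p.2.length + 1 = l) * (xE ^ k * xE ^ l) := by
    intro k _
    rw [ENNReal.ofReal_sum_of_nonneg fun l _ => by positivity]
    refine Finset.sum_congr rfl fun l _ => ?_
    rw [ENNReal.tsum_mul_right, tsum_ind (av_finite N k l), ENNReal.ofReal_mul (Nat.cast_nonneg _),
      ENNReal.ofReal_natCast, ENNReal.ofReal_pow hx.le, pow_add]
    rfl
  rw [Finset.sum_congr rfl h1, ← Finset.sum_product',
    ← Summable.tsum_finsetSum (fun _ _ => ENNReal.summable)]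
  refine ENNReal.tsum_le_tsum fun p => ?_
  by_cases hp : Sp N p.1 ∧ Sp N p.2 ∧ Q1 p.1 p.2
  · rw [ind_true hp, one_mul]
    by_cases hm : (p.1.length + 1, p.2.length + 1) ∈ range K ×ˢ range L
    · rw [Finset.sum_eq_single (p.1.length + 1, p.2.length + 1)]
      · rw [ind_true ⟨hp.1, hp.2.1, hp.2.2, rfl, rfl⟩, one_mul]
      · rintro ⟨k, l⟩ _ hne
        rw [ind_false, zero_mul]
        rintro ⟨-, -, -, rfl, rfl⟩
        exact hne rfl
      · intro h'; exact absurd hm h'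
    · rw [Finset.sum_eq_zero]
      · exact bot_le
      · rintro ⟨k, l⟩ hkl
        rw [ind_false, zero_mul]
        rintro ⟨-, -, -, rfl, rfl⟩
        exact hm hkl
  · rw [ind_false hp, zero_mul, Finset.sum_eq_zero]
    rintro ⟨k, l⟩ _
    rw [ind_false, zero_mul]
    rintro ⟨h1, h2, h3, -, -⟩
    exact hp ⟨h1, h2, h3⟩

/-- `sn_tail'` with `1 / μ` in the place of `x_c`. -/
theorem sn_tail_mu : ∃ T : ℝ, 0 < T ∧ ∀ N K : ℕ, 1 ≤ N → 1 ≤ K →
    1 - T * (N : ℝ) ^ (3 / 4 : ℝ) * (K : ℝ) ^ (-(1 / 5) : ℝ) ≤ ∑ k ∈ range (K + 1), (sn N k : ℝ) / mu ^ k := by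
  obtain ⟨C, hC, h⟩ := sn_tail'
  refine ⟨C, hC, fun N K hN hK => (h N K hN hK).trans (le_of_eq (Finset.sum_congr rfl fun k _ => ?_))⟩
  unfold xc
  rw [one_div, inv_pow, div_eq_mul_inv]

/-- `av_sum_le` with `1 / μ` in the place of `x_c`. -/
theorem av_sum_mu : ∃ T : ℝ, 0 < T ∧ ∀ N K : ℕ, 1 ≤ N →
    ∑ k ∈ range (K + 1), ∑ l ∈ range (K + 1), (av N k l : ℝ) / mu ^ (k + l) ≤ T * (N : ℝ) ^ (-(3 / 4) : ℝ) := by
  obtain ⟨C, hC, h⟩ := av_sum_le
  refine ⟨C, hC, fun N K hN => le_trans (le_of_eq ?_) (h N hN (K + 1) (K + 1))⟩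
  refine Finset.sum_congr rfl fun k _ => Finset.sum_congr rfl fun l _ => ?_
  unfold xc
  rw [one_div, inv_pow, div_eq_mul_inv]

end Pool.Agent.RAT
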