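import Pool.Agent.RAT.H.Sn
import Pool.Agent.PLY.G.BFin

/-!
RAT, half plane, (C3): the tail of the number of vertices of stopped bridges with any exponent `τ < 3/8`.

PAPER PROOF. A bridge of `T + 1` columns with more than `(T + 1) (4 (k + 2) (T + 1) + 1)` vertices has a vertex with
`|z.2| > 2 (k + 2) (T + 1)`: mass `≤ 8 ζ^k`, `ζ = 2 - √2` (`wid2`). With `M = ⌈K^(4τ/3)⌉ = o(K^(1/2))` columns the second term of
`tail_ex` is smaller than any power of `K`.
-/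

namespace Pool.Agent.RAT

open Pool.Agent.Hhelper14.SAW Pool.Agent.HHP Pool.Agent.HEP Pool.Agent.BEX.F Pool.Agent.BEX.C Pool.Agent.PLY.G
open scoped ENNReal
open Finset

/-- The number of vertices of a bridge in a box. -/
lemma box_card {T Y : ℕ} {W : List Bool} (h : Br T W) (hY : ∀ z ∈ V W, |z.2| ≤ (Y : ℤ)) :
    W.length + 1 ≤ (T + 1) * (2 * Y + 1) := by
  classical
  have h1 : (V W).length = W.length + 1 := vs_length _ _ _
  rw [← h1, ← List.toFinset_card_of_nodup h.1.1]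
  have h2 : ((V W).toFinset.image fun z : ℤ × ℤ => ((F0 z / 3).toNat, (z.2 + Y).toNat)) ⊆
      Finset.range (T + 1) ×ˢ Finset.range (2 * Y + 1) := by
    intro p hp
    rw [Finset.mem_image] at hp
    obtain ⟨z, hz, rfl⟩ := hp
    have g := h.1.2 z (List.mem_toFinset.1 hz)
    have g' := abs_le.1 (hY z (List.mem_toFinset.1 hz))
    rw [Finset.mem_product, Finset.mem_range, Finset.mem_range]
    constructor
    · simp only; omega
    · simp only; omega
  rw [← Finset.card_image_of_injOn (f := fun z : ℤ × ℤ => ((F0 z / 3).toNat, (z.2 + Y).toNat)) ?_]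
  · refine (Finset.card_le_card h2).trans ?_
    rw [Finset.card_product, Finset.card_range, Finset.card_range]
  · intro z hz y hy he
    rw [Finset.mem_coe, List.mem_toFinset] at hz hy
    have g := h.1.2 z hz
    have g' := abs_le.1 (hY z hz)
    have k := h.1.2 y hy
    have k' := abs_le.1 (hY y hy)
    have n1 := V_hon hz
    have n2 := V_hon hy
    simp only [Prod.mk.injEq] at he
    simp only [F0, hon] at *
    ext <;> omega

/-- Bridges with many vertices. -/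
lemma many_le {T k K : ℕ} (hK : (T + 1) * (4 * (k + 2) * (T + 1) + 1) ≤ K) :
    ms xE (fun W => Br T W ∧ K ≤ W.length) ≤ ENNReal.ofReal (8 * (2 - √2) ^ k) := by
  have h1 : ms xE (fun W => Br T W ∧ K ≤ W.length) ≤
      ms xE (fun W => Br T W ∧ ∃ z ∈ V W, 2 * ((k : ℤ) + 2) * (T + 1) < |z.2|) := by
    refine ms_mono fun W h => ⟨h.1, ?_⟩
    by_contra hc
    push Not at hc
    have h2 := box_card (Y := 2 * (k + 2) * (T + 1)) h.1 (fun z hz => by
      have := hc z hz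
      push_cast
      exact this)
    have h3 : (T + 1) * (2 * (2 * (k + 2) * (T + 1)) + 1) = (T + 1) * (4 * (k + 2) * (T + 1) + 1) := by ring
    rw [h3] at h2
    have := h.2
    omega
  refine h1.trans ?_
  have h2 := wid2 T k
  have h3 : bn (T + 1) ≤ 1 := Br_one T
  have h4 : ENNReal.ofReal (3 / 4) ≤ cs ^ 2 := by
    refine le_trans ?_ (pow_le_pow_left₀ (bot_le) cs_ge 2)
    rw [← ENNReal.ofReal_pow (by norm_num)]
    exact ENNReal.ofReal_le_ofReal (by norm_num)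
  have h5 : ENNReal.ofReal (3 / 4) * ms xE (fun W => Br T W ∧ ∃ z ∈ V W, 2 * ((k : ℤ) + 2) * (T + 1) < |z.2|) ≤
      ENNReal.ofReal (3 / 4) * ENNReal.ofReal (8 * (2 - √2) ^ k) := by
    have hs : (0 : ℝ) ≤ 2 - √2 := by
      have : √2 ≤ 2 := by
        rw [Real.sqrt_le_left (by norm_num)]; norm_num
      linarith
    calc _ ≤ cs ^ 2 * ms xE (fun W => Br T W ∧ ∃ z ∈ V W, 2 * ((k : ℤ) + 2) * (T + 1) < |z.2|) := by gcongr
      _ ≤ 6 * (ze ^ k * bn (T + 1)) := h2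
      _ ≤ 6 * (ze ^ k * 1) := by gcongr
      _ = ENNReal.ofReal (3 / 4) * ENNReal.ofReal (8 * (2 - √2) ^ k) := by
        unfold ze
        rw [mul_one, ← ENNReal.ofReal_pow hs, ← ENNReal.ofReal_mul (by norm_num),
          show (6 : ℝ≥0∞) = ENNReal.ofReal 6 by norm_num, ← ENNReal.ofReal_mul (by norm_num)]
        congr 1
        ring
  refine (ENNReal.mul_le_mul_iff_right ?_ ENNReal.ofReal_ne_top).1 h5
  exact (ENNReal.ofReal_pos.2 (by norm_num)).ne'

private lemma geo_pow (p : ℕ) : ∃ C : ℝ, 0 < C ∧ ∀ k : ℕ, (2 - √2) ^ k * ((k : ℝ) + 1) ^ p ≤ C := by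
  have hs : |(2 - √2 : ℝ)| < 1 := by
    have h1 : (1 : ℝ) < √2 := by
      rw [Real.lt_sqrt (by norm_num)]; norm_num
    have h2 : √2 ≤ 2 := by
      rw [Real.sqrt_le_left (by norm_num)]; norm_num
    rw [abs_lt]
    constructor <;> linarith
  have h0 : (0 : ℝ) < 2 - √2 := by
    have : √2 < 2 := by
      rw [Real.sqrt_lt' (by norm_num)]; norm_num
    linarith
  have ht := tendsto_pow_const_mul_const_pow_of_abs_lt_one p hs
  obtain ⟨C, hC⟩ := ht.bddAbove_range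
  refine ⟨C / (2 - √2) + 1, ?_, fun k => ?_⟩
  · have h1 : (0 : ℝ) ≤ C := by
      have := hC ⟨0, rfl⟩
      refine le_trans ?_ this
      positivity
    positivity
  · have h1 : ((k + 1 : ℕ) : ℝ) ^ p * (2 - √2) ^ (k + 1) ≤ C := hC ⟨k + 1, rfl⟩
    rw [pow_succ] at h1
    push_cast at h1
    have h2 : (2 - √2) ^ k * ((k : ℝ) + 1) ^ p ≤ C / (2 - √2) := by
      rw [le_div_iff₀ h0]
      linarith
    linarith

/-- The stopped bridges with at most `K` vertices have almost the full mass: any exponent `τ < 3/8`. -/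
theorem sn_tail_any {τ : ℝ} (hτ0 : 0 < τ) (hτ : τ < 3 / 8) : ∃ T : ℝ, 0 < T ∧ ∀ N K : ℕ, 1 ≤ N → 1 ≤ K →
    1 - T * (N : ℝ) ^ (3 / 4 : ℝ) * (K : ℝ) ^ (-τ) ≤ ∑ k ∈ range (K + 1), (sn N k : ℝ) / mu ^ k := by
  obtain ⟨C, hC, h⟩ := tail_ex
  set γ : ℝ := 4 * τ / 3 with hγ
  have hγ0 : 0 < γ := by positivity
  set δ : ℝ := 1 - 2 * γ with hδ
  have hδ0 : 0 < δ := by rw [hδ, hγ]; linarith
  obtain ⟨p, hp⟩ := exists_nat_ge ((γ + τ) / δ)
  obtain ⟨D, hD, hgeo⟩ := geo_pow p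
  have hpδ : γ + τ ≤ δ * p := by
    rw [div_le_iff₀ hδ0] at hp
    linarith
  refine ⟨C + 32 * D * 1000 ^ p + 1000 ^ (τ / δ), by positivity, fun N K hN hK => ?_⟩
  have hx : ∑ k ∈ range (K + 1), (sn N k : ℝ) / mu ^ k = ∑ k ∈ range (K + 1), (sn N k : ℝ) * xc ^ k := by
    refine Finset.sum_congr rfl fun k _ => ?_
    unfold xc
    rw [one_div, inv_pow, div_eq_mul_inv]
  rw [hx]
  have hNr : (1 : ℝ) ≤ N := by exact_mod_cast hN
  have hKr : (1 : ℝ) ≤ K := by exact_mod_cast hK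
  have hpos : 0 ≤ ∑ k ∈ range (K + 1), (sn N k : ℝ) * xc ^ k :=
    Finset.sum_nonneg fun k _ => by have := xc_pos; positivity
  have hN34 : (1 : ℝ) ≤ (N : ℝ) ^ (3 / 4 : ℝ) := Real.one_le_rpow hNr (by norm_num)
  set t : ℝ := (K : ℝ) ^ γ with ht
  have ht1 : 1 ≤ t := Real.one_le_rpow hKr hγ0.le
  set M : ℕ := ⌈t⌉₊ with hMdef
  have hM1 : t ≤ M := Nat.le_ceil t
  have hM2 : (M : ℝ) ≤ 2 * t := by
    have := Nat.ceil_lt_add_one (show 0 ≤ t by linarith)
    linarith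
  have hMr : (1 : ℝ) ≤ M := ht1.trans hM1
  have hM : 1 ≤ M := by exact_mod_cast hMr
  have e1 : t ^ (3 / 4 : ℝ) = (K : ℝ) ^ τ := by
    rw [ht, ← Real.rpow_mul (by positivity), hγ]; congr 1; ring
  have e2 : (K : ℝ) ^ (-τ) = ((K : ℝ) ^ τ)⁻¹ := Real.rpow_neg (by positivity) _
  have hD0 : 0 ≤ 32 * D * 1000 ^ p := by positivity
  have hE0 : (0 : ℝ) < 1000 ^ (τ / δ) := by positivity
  have hKτ : 0 < (K : ℝ) ^ τ := by positivity
  have hA0 : 0 < (N : ℝ) ^ (3 / 4 : ℝ) * (K : ℝ) ^ (-τ) := by positivity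
  rcases Nat.lt_or_ge M N with hNM | hNM
  · refine le_trans ?_ hpos
    have h1 : (M : ℝ) ≤ N := by exact_mod_cast hNM.le
    have h2 : (K : ℝ) ^ τ ≤ (N : ℝ) ^ (3 / 4 : ℝ) := by
      rw [← e1]
      exact Real.rpow_le_rpow (by linarith) (hM1.trans h1) (by norm_num)
    have h3 : 1 ≤ (N : ℝ) ^ (3 / 4 : ℝ) * (K : ℝ) ^ (-τ) := by
      rw [e2, ← div_eq_mul_inv, one_le_div (by positivity)]
      exact h2
    have h4 : (1 : ℝ) ≤ 1000 ^ (τ / δ) := Real.one_le_rpow (by norm_num) (by positivity)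
    nlinarith
  rcases lt_or_ge ((K : ℝ) ^ δ) 1000 with hs | hs
  · refine le_trans ?_ hpos
    have h1 : (K : ℝ) ^ τ ≤ 1000 ^ (τ / δ) := by
      have : (K : ℝ) ^ τ = ((K : ℝ) ^ δ) ^ (τ / δ) := by
        rw [← Real.rpow_mul (by positivity)]
        congr 1
        field_simp
      rw [this]
      exact Real.rpow_le_rpow (by positivity) hs.le (by positivity)
    have h2 : 1 ≤ 1000 ^ (τ / δ) * (K : ℝ) ^ (-τ) := by
      rw [e2, ← div_eq_mul_inv, one_le_div (by positivity)]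
      exact h1
    have h3 : 1 ≤ 1000 ^ (τ / δ) * ((N : ℝ) ^ (3 / 4 : ℝ) * (K : ℝ) ^ (-τ)) := by
      calc (1 : ℝ) ≤ 1000 ^ (τ / δ) * (K : ℝ) ^ (-τ) := h2
        _ ≤ 1000 ^ (τ / δ) * ((N : ℝ) ^ (3 / 4 : ℝ) * (K : ℝ) ^ (-τ)) := by
          refine mul_le_mul_of_nonneg_left ?_ hE0.le
          exact le_mul_of_one_le_left (by positivity) hN34
    nlinarith
  · set k : ℕ := ⌊(K : ℝ) ^ δ / 100⌋₊ - 2 with hk
    have hf1 : (⌊(K : ℝ) ^ δ / 100⌋₊ : ℝ) ≤ (K : ℝ) ^ δ / 100 := Nat.floor_le (by positivity)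
    have hf2 : (K : ℝ) ^ δ / 100 - 1 < ⌊(K : ℝ) ^ δ / 100⌋₊ := by
      have := Nat.lt_floor_add_one ((K : ℝ) ^ δ / 100)
      linarith
    have hf3 : 2 ≤ ⌊(K : ℝ) ^ δ / 100⌋₊ := Nat.le_floor (by push_cast; linarith)
    have hk2 : ((k + 2 : ℕ) : ℝ) ≤ (K : ℝ) ^ δ / 100 := by
      rw [hk, Nat.sub_add_cancel hf3]; exact hf1
    have hk1 : (K : ℝ) ^ δ / 1000 ≤ (k : ℝ) + 1 := by
      have : ((k + 2 : ℕ) : ℝ) = ⌊(K : ℝ) ^ δ / 100⌋₊ := by rw [hk, Nat.sub_add_cancel hf3]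
      push_cast at this
      linarith
    have hKδ : t ^ 2 * (K : ℝ) ^ δ = K := by
      rw [ht, ← Real.rpow_natCast, ← Real.rpow_mul (by positivity), ← Real.rpow_add (by positivity)]
      conv_rhs => rw [← Real.rpow_one (K : ℝ)]
      congr 1
      rw [hδ]
      push_cast
      ring
    have hb : ∀ T ∈ range (N + M), ms xE (fun W => Br T W ∧ K ≤ W.length) ≤ ENNReal.ofReal (8 * (2 - √2) ^ k) := by
      intro T hT
      rw [Finset.mem_range] at hT
      refine many_le ?_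
      have h1 : T + 1 ≤ 2 * M := by omega
      have h2 : (T + 1) * (4 * (k + 2) * (T + 1) + 1) ≤ (2 * M) * (4 * (k + 2) * (2 * M) + 1) := by
        gcongr
      refine h2.trans ?_
      have h3 : ((2 * M * (4 * (k + 2) * (2 * M) + 1) : ℕ) : ℝ) ≤ (K : ℝ) := by
        push_cast at hk2 ⊢
        have h4 : 2 * (M : ℝ) * (4 * ((k : ℝ) + 2) * (2 * M) + 1) ≤ 17 * ((k : ℝ) + 2) * (M : ℝ) ^ 2 := by
          have : (0 : ℝ) ≤ k := Nat.cast_nonneg k
          nlinarith [mul_le_mul_of_nonneg_left hMr (show (0 : ℝ) ≤ M by linarith)]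
        refine h4.trans ?_
        calc 17 * ((k : ℝ) + 2) * (M : ℝ) ^ 2 ≤ 17 * ((K : ℝ) ^ δ / 100) * (2 * t) ^ 2 := by gcongr
          _ = 68 / 100 * (t ^ 2 * (K : ℝ) ^ δ) := by ring
          _ = 68 / 100 * K := by rw [hKδ]
          _ ≤ K := by linarith
      exact_mod_cast h3
    have hS := (h N M K hN hM).trans (add_le_add le_rfl (add_le_add le_rfl (Finset.sum_le_sum hb)))
    rw [Finset.sum_const, Finset.card_range, nsmul_eq_mul, ← ENNReal.ofReal_natCast,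
      ← ENNReal.ofReal_mul (Nat.cast_nonneg _)] at hS
    have h0 : (0 : ℝ) ≤ 2 - √2 := by
      have : √2 ≤ 2 := by
        rw [Real.sqrt_le_left (by norm_num)]; norm_num
      linarith
    rw [← ENNReal.ofReal_add (by positivity) (by positivity), ← ENNReal.ofReal_add hpos (by positivity),
      ENNReal.one_le_ofReal] at hS
    have h1 : ((N : ℝ) / M) ^ (3 / 4 : ℝ) ≤ (N : ℝ) ^ (3 / 4 : ℝ) * (K : ℝ) ^ (-τ) := by
      rw [Real.div_rpow (by positivity) (by positivity), div_eq_mul_inv, e2, ← e1]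
      gcongr
    have h2 : ((N + M : ℕ) : ℝ) * (8 * (2 - √2) ^ k) ≤ 32 * D * 1000 ^ p * (K : ℝ) ^ (-τ) := by
      have h3 : ((N + M : ℕ) : ℝ) ≤ 4 * t := by
        push_cast
        have : (N : ℝ) ≤ M := by exact_mod_cast hNM
        linarith
      have h4 : (2 - √2) ^ k ≤ D * 1000 ^ p * (K : ℝ) ^ (-(γ + τ)) := by
        have h5 : (2 - √2) ^ k * ((K : ℝ) ^ δ / 1000) ^ p ≤ D := by
          refine le_trans ?_ (hgeo k)
          gcongr
        have h6 : ((K : ℝ) ^ δ / 1000) ^ p = (K : ℝ) ^ (δ * p) / 1000 ^ p := by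
          rw [div_pow, ← Real.rpow_natCast ((K : ℝ) ^ δ), ← Real.rpow_mul (by positivity)]
        rw [h6] at h5
        have h7 : (K : ℝ) ^ (γ + τ) ≤ (K : ℝ) ^ (δ * p) := Real.rpow_le_rpow_of_exponent_le hKr hpδ
        have h8 : (2 - √2) ^ k * ((K : ℝ) ^ (γ + τ) / 1000 ^ p) ≤ D := by
          refine le_trans ?_ h5
          gcongr
        rw [Real.rpow_neg (by positivity)]
        have h9 : (0 : ℝ) < (K : ℝ) ^ (γ + τ) := by positivity
        rw [← div_eq_mul_inv, le_div_iff₀ h9]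
        calc (2 - √2) ^ k * (K : ℝ) ^ (γ + τ) = (2 - √2) ^ k * ((K : ℝ) ^ (γ + τ) / 1000 ^ p) * 1000 ^ p := by
              field_simp
          _ ≤ D * 1000 ^ p := by gcongr
      calc ((N + M : ℕ) : ℝ) * (8 * (2 - √2) ^ k) ≤ 4 * t * (8 * (D * 1000 ^ p * (K : ℝ) ^ (-(γ + τ)))) := by gcongr
        _ = 32 * D * 1000 ^ p * (t * (K : ℝ) ^ (-(γ + τ))) := by ring
        _ = 32 * D * 1000 ^ p * (K : ℝ) ^ (-τ) := by
          rw [ht, ← Real.rpow_add (by positivity)]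
          congr 2
          ring
    have h3 : (K : ℝ) ^ (-τ) ≤ (N : ℝ) ^ (3 / 4 : ℝ) * (K : ℝ) ^ (-τ) :=
      le_mul_of_one_le_left (by positivity) hN34
    have h4 := mul_le_mul_of_nonneg_left h1 hC.le
    have h5 := mul_le_mul_of_nonneg_left h3 hD0
    have h6 : 0 ≤ 1000 ^ (τ / δ) * ((N : ℝ) ^ (3 / 4 : ℝ) * (K : ℝ) ^ (-τ)) := by positivity
    nlinarith

end Pool.Agent.RAT
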