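import Pool.Agent.RAT.H.Words

/-!
RAT/H: half-plane walks which begin with a stopped bridge.

`stop_le`: `∑ k ≤ K, sn N k * h (n - k) ≤ h n`; `pair_le`: pairs of half-plane walks with only the start in common.

PROOF.  `X ↦ A ++ rt A :: X` glues a half-plane word behind the stopped bridge `A`; `A` is determined by the word (`sgl_inj`): the last column of the
shorter one of two such bridges would be a renewal level `≥ N` of the longer one.  For pairs: both words begin with stopped bridges with at most `K` vertices, which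
then have only the start in common, or one of the two words does not.
-/

namespace Pool.Agent.RAT

open Pool.Agent.Hhelper14.SAW Pool.Agent.HHP Pool.Agent.BEX.F

/-- The half-plane word behind a stopped bridge. -/
def sgl (p : List Bool × List Bool) : List Bool := p.1 ++ rt p.1 :: p.2

lemma sgl_length (p : List Bool × List Bool) : (sgl p).length = p.1.length + 1 + p.2.length := by
  unfold sgl
  simp only [List.length_append, List.length_cons]
  omega

private lemma StopH_F0 {j : ℕ} {A : List Bool} (h : Br j A) (z : ℤ × ℤ) :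
    F0 ((E A + (1, 0)) + z) = 3 * (j : ℤ) + 3 + F0 z := by
  rw [F0_add, F0_add, h.2]
  simp only [F0]
  ring

lemma sgl_hw {N k n : ℕ} {A X : List Bool} (hA : A ∈ SpS N k) (hX : HwN (n - k) X) (hk : k ≤ n) :
    HwN n (sgl (A, X)) := by
  obtain ⟨⟨j, hB, -, -⟩, hl⟩ := hA
  obtain ⟨e1, -, -⟩ := app_right (Q := X) hB.tn_rt
  refine ⟨?_, ?_, ?_⟩
  · rw [sgl_length, hX.1]
    simp only
    omega
  · unfold sgl
    simp only
    rw [e1, List.nodup_append]
    refine ⟨hB.1.1, hX.2.1.map (fun x y h => by simpa using h), ?_⟩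
    intro x hx y hy hxy
    obtain ⟨z, hz, rfl⟩ := List.mem_map.1 hy
    have h1 := (hB.1.2 x hx).2
    have h2 := hX.2.2 z hz
    rw [hxy, StopH_F0 hB] at h1
    omega
  · intro z hz
    unfold sgl at hz
    simp only at hz
    rw [e1, List.mem_append] at hz
    rcases hz with hz | hz
    · exact (hB.1.2 z hz).1
    · obtain ⟨w, hw, rfl⟩ := List.mem_map.1 hz
      have h2 := hX.2.2 w hw
      rw [StopH_F0 hB]
      omega

/-- The vertices of the bridge are vertices of the glued word. -/
lemma mem_sgl {A X : List Bool} {z : ℤ × ℤ} (h : z ∈ V A) : z ∈ V (sgl (A, X)) := by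
  unfold sgl
  rw [V_append]
  exact List.mem_append_left _ h

private lemma StopH_len {N : ℕ} {A A' X X' : List Bool} (h1 : Sp N A) (h2 : Sp N A')
    (hX : ∀ z ∈ V X, 0 ≤ F0 z) (h : sgl (A, X) = sgl (A', X')) : A'.length ≤ A.length := by
  unfold sgl at h
  simp only at h
  by_contra hlt
  push Not at hlt
  obtain ⟨Y, hY⟩ : ∃ Y, A' = A ++ rt A :: Y := by
    rcases List.append_eq_append_iff.1 h with ⟨B, hB1, hB2⟩ | ⟨B, hB1, hB2⟩
    · cases B with
      | nil => simp at hB1; rw [hB1] at hlt; simp at hlt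
      | cons c B =>
        simp only [List.cons_append, List.cons.injEq] at hB2
        exact ⟨B, by rw [hB1, hB2.1]⟩
    · rw [hB1] at hlt; simp at hlt
  obtain ⟨j, hB, hN, -⟩ := h1
  obtain ⟨j', hB', hN', hR'⟩ := h2
  have e : X = Y ++ rt A' :: X' := by
    have h3 := h
    rw [hY, List.append_assoc] at h3
    have h4 := List.append_cancel_left h3
    rw [← hY] at h4
    simpa using h4
  have hYpos : ∀ z ∈ V Y, 0 ≤ F0 z := by
    intro z hz
    apply hX
    rw [e, V_append]
    exact List.mem_append_left _ hz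
  have hVA : V A' = V A ++ (V Y).map (fun z => (E A + (1, 0)) + z) := by
    rw [hY]
    exact (app_right (Q := Y) hB.tn_rt).1
  have hR : Ren (j + 1) A' := by
    refine ⟨A, rt A, Y, hY, fun z hz => ?_, fun z hz => ?_⟩
    · have := (hB.1.2 z hz).2
      push_cast
      omega
    · rw [hB.tn_rt, vs_right] at hz
      obtain ⟨w, hw, rfl⟩ := List.mem_map.1 hz
      have h2 := hYpos w hw
      rw [StopH_F0 hB]
      push_cast
      omega
  have hle : j + 1 ≤ j' := by
    have hmem : (E A + (1, 0)) + (0, 0) ∈ V A' := by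
      rw [hVA]
      exact List.mem_append_right _ (List.mem_map_of_mem (f := fun z => (E A + (1, 0)) + z) (o_mem Y))
    have h3 := (hB'.1.2 _ hmem).2
    rw [StopH_F0 hB] at h3
    simp only [F0] at h3
    omega
  exact hR' (j + 1) hN hle hR

lemma sgl_inj {N : ℕ} {A A' X X' : List Bool} (h1 : Sp N A) (h2 : Sp N A')
    (hX : ∀ z ∈ V X, 0 ≤ F0 z) (hX' : ∀ z ∈ V X', 0 ≤ F0 z) (h : sgl (A, X) = sgl (A', X')) :
    A = A' ∧ X = X' := by
  have e1 := StopH_len h1 h2 hX h
  have e2 := StopH_len h2 h1 hX' h.symm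
  unfold sgl at h
  simp only at h
  have e3 := List.append_inj h (le_antisymm e2 e1)
  refine ⟨e3.1, ?_⟩
  have := e3.2
  simp only [List.cons.injEq] at this
  exact this.2

/-- The words of half-plane walks as a finite set. -/
noncomputable def HwF (n : ℕ) : Finset (List Bool) := (hw_finite n).toFinset

lemma mem_HwF {n : ℕ} {X : List Bool} : X ∈ HwF n ↔ HwN n X := by
  unfold HwF
  rw [Set.Finite.mem_toFinset]
  rfl

lemma card_HwF (n : ℕ) : (HwF n).card = cn true n := by
  rw [cn_true]
  exact (Set.ncard_eq_toFinset_card _ (hw_finite n)).symm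

noncomputable def SpF (N k : ℕ) : Finset (List Bool) := (SpS_finite N k).toFinset

lemma mem_SpF {N k : ℕ} {X : List Bool} : X ∈ SpF N k ↔ X ∈ SpS N k := by
  unfold SpF
  rw [Set.Finite.mem_toFinset]

lemma card_SpF (N k : ℕ) : (SpF N k).card = sn N k :=
  (Set.ncard_eq_toFinset_card _ (SpS_finite N k)).symm

noncomputable def AvF (N k l : ℕ) : Finset (List Bool × List Bool) := (AvS_finite N k l).toFinset

lemma mem_AvF {N k l : ℕ} {p : List Bool × List Bool} : p ∈ AvF N k l ↔ p ∈ AvS N k l := by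
  unfold AvF
  rw [Set.Finite.mem_toFinset]

lemma card_AvF (N k l : ℕ) : (AvF N k l).card = av N k l :=
  (Set.ncard_eq_toFinset_card _ (AvS_finite N k l)).symm

/-- The pairs (stopped bridge with at most `K` vertices, rest). -/
noncomputable def StP (N K n : ℕ) : Finset (Σ _ : ℕ, List Bool × List Bool) :=
  (Finset.range (K + 1)).sigma fun k => SpF N k ×ˢ HwF (n - k)

lemma card_StP (N K n : ℕ) :
    (StP N K n).card = ∑ k ∈ Finset.range (K + 1), sn N k * cn true (n - k) := by
  unfold StP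
  rw [Finset.card_sigma]
  refine Finset.sum_congr rfl fun k _ => ?_
  rw [Finset.card_product, card_SpF, card_HwF]

private lemma StopH_mem {N K n : ℕ} {q : Σ _ : ℕ, List Bool × List Bool} (h : q ∈ StP N K n) :
    q.1 ≤ K ∧ q.2.1 ∈ SpS N q.1 ∧ HwN (n - q.1) q.2.2 := by
  unfold StP at h
  rw [Finset.mem_sigma, Finset.mem_range, Finset.mem_product, mem_SpF, mem_HwF] at h
  exact ⟨by omega, h.2.1, h.2.2⟩

lemma sgl_injOn (N K n : ℕ) :
    Set.InjOn (fun q : Σ _ : ℕ, List Bool × List Bool => sgl q.2) (StP N K n) := by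
  rintro ⟨k, A, X⟩ h1 ⟨k', A', X'⟩ h2 h
  obtain ⟨-, hA, hX⟩ := StopH_mem h1
  obtain ⟨-, hA', hX'⟩ := StopH_mem h2
  simp only at hA hX hA' hX' h
  obtain ⟨rfl, rfl⟩ := sgl_inj hA.1 hA'.1 hX.2.2 hX'.2.2 h
  have : k = k' := by
    rw [← hA.2, ← hA'.2]
  rw [this]

/-- The words which begin with a stopped bridge with at most `K` vertices. -/
noncomputable def StG (N K n : ℕ) : Finset (List Bool) := (StP N K n).image fun q => sgl q.2

lemma card_StG (N K n : ℕ) :
    (StG N K n).card = ∑ k ∈ Finset.range (K + 1), sn N k * cn true (n - k) := by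
  unfold StG
  rw [Finset.card_image_of_injOn (sgl_injOn N K n), card_StP]

lemma StG_sub {N K n : ℕ} (hK : K ≤ n) : StG N K n ⊆ HwF n := by
  intro Y hY
  unfold StG at hY
  obtain ⟨⟨k, A, X⟩, h1, rfl⟩ := Finset.mem_image.1 hY
  obtain ⟨hk, hA, hX⟩ := StopH_mem h1
  exact mem_HwF.2 (sgl_hw hA hX (hk.trans hK))

/-- **half-plane walks which begin with a stopped bridge** -/
theorem stop_le {N K n : ℕ} (hK : K ≤ n) :
    ∑ k ∈ Finset.range (K + 1), sn N k * cn true (n - k) ≤ cn true n := by
  rw [← card_StG, ← card_HwF n]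
  exact Finset.card_le_card (StG_sub hK)

/-- **pairs of half-plane walks with only the start in common** -/
theorem pair_le {N K n : ℕ} (hK : K ≤ n) :
    dn n n + 2 * cn true n * ∑ k ∈ Finset.range (K + 1), sn N k * cn true (n - k) ≤
      (∑ k ∈ Finset.range (K + 1), ∑ l ∈ Finset.range (K + 1),
        av N k l * (cn true (n - k) * cn true (n - l))) + 2 * cn true n * cn true n := by
  classical
  have hfin : {p : List Bool × List Bool | HwN n p.1 ∧ HwN n p.2 ∧ Q1 p.1 p.2}.Finite :=
    ((hw_finite n).prod (hw_finite n)).subset fun _ h => ⟨h.1, h.2.1⟩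
  have hdn : dn n n = hfin.toFinset.card := by
    rw [dn_words]
    exact Set.ncard_eq_toFinset_card _ hfin
  set B := HwF n \ StG N K n with hB
  have hBcard : B.card + (StG N K n).card = cn true n := by
    rw [← card_HwF n]
    exact Finset.card_sdiff_add_card_eq_card (StG_sub hK)
  -- the index set of the good pairs
  set T : Finset (Σ _ : ℕ × ℕ, (List Bool × List Bool) × (List Bool × List Bool)) :=
    (Finset.range (K + 1) ×ˢ Finset.range (K + 1)).sigma fun kl =>
      AvF N kl.1 kl.2 ×ˢ (HwF (n - kl.1) ×ˢ HwF (n - kl.2)) with hT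
  have hTcard : T.card = ∑ k ∈ Finset.range (K + 1), ∑ l ∈ Finset.range (K + 1),
      av N k l * (cn true (n - k) * cn true (n - l)) := by
    rw [hT, Finset.card_sigma, Finset.sum_product]
    refine Finset.sum_congr rfl fun k _ => Finset.sum_congr rfl fun l _ => ?_
    rw [Finset.card_product, Finset.card_product, card_AvF, card_HwF, card_HwF]
  have hsub : hfin.toFinset ⊆ (B ×ˢ HwF n ∪ HwF n ×ˢ B) ∪
      T.image fun q => (sgl (q.2.1.1, q.2.2.1), sgl (q.2.1.2, q.2.2.2)) := by
    rintro ⟨X, Y⟩ h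
    rw [Set.Finite.mem_toFinset] at h
    obtain ⟨hX, hY, hQ⟩ := h
    simp only at hX hY hQ
    rw [Finset.mem_union, Finset.mem_union, Finset.mem_product, Finset.mem_product]
    by_cases h1 : X ∈ StG N K n
    swap
    · exact Or.inl (Or.inl ⟨Finset.mem_sdiff.2 ⟨mem_HwF.2 hX, h1⟩, mem_HwF.2 hY⟩)
    by_cases h2 : Y ∈ StG N K n
    swap
    · exact Or.inl (Or.inr ⟨mem_HwF.2 hX, Finset.mem_sdiff.2 ⟨mem_HwF.2 hY, h2⟩⟩)
    right
    unfold StG at h1 h2
    obtain ⟨⟨k, A, X'⟩, h3, rfl⟩ := Finset.mem_image.1 h1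
    obtain ⟨⟨l, A', Y'⟩, h4, rfl⟩ := Finset.mem_image.1 h2
    obtain ⟨hk, hA, hX'⟩ := StopH_mem h3
    obtain ⟨hl, hA', hY'⟩ := StopH_mem h4
    simp only at hk hA hX' hl hA' hY'
    refine Finset.mem_image.2 ⟨⟨(k, l), ((A, A'), (X', Y'))⟩, ?_, rfl⟩
    rw [hT, Finset.mem_sigma, Finset.mem_product, Finset.mem_product, Finset.mem_product,
      Finset.mem_range, Finset.mem_range, mem_AvF, mem_HwF, mem_HwF]
    refine ⟨⟨by simp only; omega, by simp only; omega⟩, ⟨hA.1, hA'.1, ?_, hA.2, hA'.2⟩, hX', hY'⟩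
    intro z hz hz'
    exact hQ z (mem_sgl hz) (mem_sgl hz')
  have hcard : hfin.toFinset.card ≤ (B.card * cn true n + cn true n * B.card) + T.card := by
    refine (Finset.card_le_card hsub).trans ((Finset.card_union_le _ _).trans ?_)
    refine Nat.add_le_add ((Finset.card_union_le _ _).trans ?_) Finset.card_image_le
    rw [Finset.card_product, Finset.card_product, card_HwF]
  rw [hdn, ← hTcard, ← card_StG]
  have h5 : 2 * cn true n * cn true n = 2 * cn true n * B.card + 2 * cn true n * (StG N K n).card := by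
    rw [← hBcard]
    ring
  rw [h5]
  nlinarith [hcard]

/-- The parity: after an even number of turns the walk is at a vertex with `F0 ≡ 0`, after an odd number with `F0 ≡ 1`. -/
private lemma StopH_par (X : List Bool) : ∀ p d : ℤ × ℤ,
    ((F0 p % 3 = 0 ∧ (d = (1, 0) ∨ d = (0, -1) ∨ d = (-1, 1))) →
      F0 (ep p d X) % 3 = (X.length % 2 : ℕ)) ∧
    ((F0 p % 3 = 1 ∧ (d = (-1, 0) ∨ d = (0, 1) ∨ d = (1, -1))) →
      F0 (ep p d X) % 3 = ((X.length + 1) % 2 : ℕ)) := by
  induction X with
  | nil =>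
    intro p d
    refine ⟨fun h => ?_, fun h => ?_⟩
    · simp only [ep, List.length_nil]
      rw [h.1]; rfl
    · simp only [ep, List.length_nil]
      rw [h.1]; rfl
  | cons b X ih =>
    intro p d
    constructor
    · rintro ⟨h1, h2⟩
      simp only [ep, List.length_cons]
      refine (ih _ _).2 ?_
      obtain ⟨x, y⟩ := p
      rcases h2 with rfl | rfl | rfl <;> cases b <;>
        simp only [tn, L, R, F0, Prod.mk_add_mk, Prod.mk.injEq, if_true, if_false, Bool.false_eq_true] at h1 ⊢ <;>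
        norm_num <;> omega
    · rintro ⟨h1, h2⟩
      simp only [ep, List.length_cons]
      rw [(ih _ _).1 ?_]
      · congr 1
        omega
      · obtain ⟨x, y⟩ := p
        rcases h2 with rfl | rfl | rfl <;> cases b <;>
          simp only [tn, L, R, F0, Prod.mk_add_mk, Prod.mk.injEq, if_true, if_false, Bool.false_eq_true] at h1 ⊢ <;>
          norm_num <;> omega

lemma not_SpS {N k : ℕ} (hk : k % 2 = 1) (X : List Bool) : X ∉ SpS N k := by
  rintro ⟨⟨j, hB, -, -⟩, hl⟩
  have h1 := (StopH_par X (0, 0) (1, 0)).1 ⟨by decide, Or.inl rfl⟩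
  have h2 := hB.2
  unfold E at h2
  rw [h2] at h1
  have h3 : X.length % 2 = 0 := by omega
  rw [h3] at h1
  push_cast at h1
  omega

/-- **stopped bridges have an even number of vertices** -/
theorem sn_odd {N k : ℕ} (hk : k % 2 = 1) : sn N k = 0 := by
  rw [sn_SpS, Set.ncard_eq_zero (SpS_finite N k), Set.eq_empty_iff_forall_notMem]
  exact not_SpS hk

theorem av_odd {N k l : ℕ} (hk : k % 2 = 1 ∨ l % 2 = 1) : av N k l = 0 := by
  rw [av_AvS, Set.ncard_eq_zero (AvS_finite N k l), Set.eq_empty_iff_forall_notMem]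
  rintro ⟨X, Y⟩ ⟨h1, h2, -, h4, h5⟩
  rcases hk with h | h
  · exact not_SpS h X ⟨h1, h4⟩
  · exact not_SpS h Y ⟨h2, h5⟩

/-- **the stopped bridges with two vertices** -/
theorem one_le_sn : 1 ≤ sn 1 2 := by
  rw [sn_SpS, Nat.one_le_iff_ne_zero, Ne, Set.ncard_eq_zero (SpS_finite 1 2)]
  intro h
  have h1 : [true] ∈ SpS 1 2 := by
    refine ⟨⟨0, ⟨⟨by decide, ?_⟩, by decide⟩, le_rfl, fun i h1 h2 => by omega⟩, rfl⟩
    intro z hz
    simp only [V, vs, tn, L, List.mem_cons, List.not_mem_nil, or_false] at hz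
    rcases hz with rfl | rfl <;> simp [F0]
  rw [h] at h1
  exact h1

/-- the real form of `pair_le` -/
theorem pair_le_real {N K n : ℕ} (hK : K ≤ n) :
    (dn n n : ℝ) ≤ (∑ k ∈ Finset.range (K + 1), ∑ l ∈ Finset.range (K + 1),
        (av N k l : ℝ) * cn true (n - k) * cn true (n - l)) +
      2 * cn true n * (cn true n - ∑ k ∈ Finset.range (K + 1), (sn N k : ℝ) * cn true (n - k)) := by
  have h := pair_le (N := N) hK
  have h' : ((dn n n + 2 * cn true n * ∑ k ∈ Finset.range (K + 1), sn N k * cn true (n - k) : ℕ) : ℝ) ≤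
      (((∑ k ∈ Finset.range (K + 1), ∑ l ∈ Finset.range (K + 1),
        av N k l * (cn true (n - k) * cn true (n - l))) + 2 * cn true n * cn true n : ℕ) : ℝ) := by
    exact_mod_cast h
  push_cast at h'
  have h2 : ∑ k ∈ Finset.range (K + 1), ∑ l ∈ Finset.range (K + 1),
      (av N k l : ℝ) * cn true (n - k) * cn true (n - l) =
      ∑ k ∈ Finset.range (K + 1), ∑ l ∈ Finset.range (K + 1),
        (av N k l : ℝ) * ((cn true (n - k) : ℝ) * cn true (n - l)) :=
    Finset.sum_congr rfl fun k _ => Finset.sum_congr rfl fun l _ => by ring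
  rw [h2]
  linarith

end Pool.Agent.RAT
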