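import Pool.Agent.RAT.H.FinOf
import Pool.Agent.RAT.H.StopH
import Pool.Agent.RAT.H.Sn
import Pool.Agent.RAT.H.SnT
import Pool.Agent.RAT.B.RatioH

/-!
Project RAT, half plane: THE UPPER BOUND `dn n n ≤ C n^(-1/26) (cn true n)^2` for every `n ≥ 1`.
-/

namespace Pool.Agent.RAT

open Pool.Agent.Hhelper14.SAW Finset

/-- The number of pairs of half-plane walks of length `n` with only the start in common, over the number of pairs. -/
theorem half_up : ∃ C : ℝ, 0 < C ∧ ∀ n : ℕ, 1 ≤ n →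
    (dn n n : ℝ) / (cn true n : ℝ) ^ 2 ≤ C * (n : ℝ) ^ (-(1 / 26 : ℝ)) :=
  upper_of (fun _ hb0 hb => ratio_half hb0 hb) (fun n => cn_pos true n) (fun _ _ _ hk => sn_odd hk) one_le_sn
    (fun _ _ _ _ hK => stop_le hK) (fun _ _ _ _ hK => pair_le_real hK) (fun _ _ _ _ hk => av_odd hk)
    (sn_tail_any (by norm_num) (by norm_num)) av_sum_mu

end Pool.Agent.RAT
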