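import Pool.Agent.RAT.H.Up
import Pool.Agent.RAT.H.SnDef
import Pool.Agent.RAT.D.Defs

/-!
Project RAT, half plane, assembly of the upper bound (C4): `dn n n ≤ C n^(-1/26) (cn true n)^2`, from the ratio theorem
in steps of 4 (exponents `< 1/4`), the decomposition at the first renewal level `≥ N` (C2) and the masses (C3).
-/

namespace Pool.Agent.RAT

open Pool.Agent.Hhelper14.SAW Finset

theorem upper_of
    (r4 : ∀ be : ℝ, 0 < be → be < 1 / 4 → ∃ A : ℝ, 0 < A ∧ ∀ n : ℕ, 1 ≤ n →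
      |(cn true (n + 4) : ℝ) / (mu ^ 4 * (cn true n : ℝ)) - 1| ≤ A / (n : ℝ) ^ be)
    (hpos : ∀ n, 0 < cn true n)
    (sodd : ∀ N k, 1 ≤ N → k % 2 = 1 → sn N k = 0) (s12 : 1 ≤ sn 1 2)
    (hi : ∀ N n K : ℕ, 1 ≤ N → K ≤ n → ∑ k ∈ range (K + 1), sn N k * cn true (n - k) ≤ cn true n)
    (hii : ∀ N n K : ℕ, 1 ≤ N → K ≤ n →
      (dn n n : ℝ) ≤ ∑ k ∈ range (K + 1), ∑ l ∈ range (K + 1), (av N k l : ℝ) * cn true (n - k) * cn true (n - l) +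
        2 * cn true n * (cn true n - ∑ k ∈ range (K + 1), (sn N k : ℝ) * cn true (n - k)))
    (avodd : ∀ N k l, 1 ≤ N → k % 2 = 1 ∨ l % 2 = 1 → av N k l = 0)
    (tail : ∃ T : ℝ, 0 < T ∧ ∀ N K : ℕ, 1 ≤ N → 1 ≤ K →
      1 - T * (N : ℝ) ^ (3 / 4 : ℝ) * (K : ℝ) ^ (-(37 / 100 : ℝ)) ≤ ∑ k ∈ range (K + 1), (sn N k : ℝ) / mu ^ k)
    (avs : ∃ T : ℝ, 0 < T ∧ ∀ N K : ℕ, 1 ≤ N →
      ∑ k ∈ range (K + 1), ∑ l ∈ range (K + 1), (av N k l : ℝ) / mu ^ (k + l) ≤ T * (N : ℝ) ^ (-(3 / 4 : ℝ))) :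
    ∃ C : ℝ, 0 < C ∧ ∀ n : ℕ, 1 ≤ n → (dn n n : ℝ) / (cn true n : ℝ) ^ 2 ≤ C * (n : ℝ) ^ (-(1 / 26 : ℝ)) := by
  obtain ⟨A, hA, hr⟩ := r4 (237 / 962) (by norm_num) (by norm_num)
  obtain ⟨T, hT, htail⟩ := tail
  obtain ⟨T', hT', havs⟩ := avs
  refine half_upper (h := cn true) (s := sn) (av := av) (d := fun n => dn n n) mu_pos hpos (A := A) (β := 237 / 962)
    (a := 2 / 39) (b := 100 / 481) (c := 1 / 26) hA (by norm_num) (by norm_num) (by norm_num) (by norm_num) (by norm_num)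
    hr sodd s12 hi (T := max T T') (σ := 3 / 4) (τ := 37 / 100) (θ := 3 / 4) (lt_max_of_lt_left hT) (by norm_num)
    (by norm_num) (by norm_num) (by norm_num) (by norm_num) ?_ avodd ?_ hii
  · intro N K hN hK
    refine le_trans ?_ (htail N K hN hK)
    have : T * (N : ℝ) ^ (3 / 4 : ℝ) * (K : ℝ) ^ (-(37 / 100 : ℝ)) ≤
        max T T' * (N : ℝ) ^ (3 / 4 : ℝ) * (K : ℝ) ^ (-(37 / 100 : ℝ)) := by
      gcongr
      exact le_max_left _ _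
    linarith
  · intro N K hN
    refine (havs N K hN).trans ?_
    gcongr
    exact le_max_right _ _

end Pool.Agent.RAT
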