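import Pool.Agent.RAT.H.MainOf
import Pool.Agent.RAT.H.Fin
import Pool.Agent.RAT.D.Main

/-!
RAT: two independent uniform self-avoiding paths of length `n` in the half plane, for every `n`.
-/

namespace Pool.Agent.RAT

open Pool.Agent.Hhelper64.Two Pool.Agent.Hhelper14.SAW

theorem half_plane : ∃ C : ℝ, 0 < C ∧ ∀ n : ℕ, 1 ≤ n →
    (n : ℝ) ^ (-C) / C ≤ P halfPlane n ∧ P halfPlane n ≤ C * (n : ℝ) ^ (-(1 / 26) : ℝ) :=
  main_half half_up dn_low (fun n => cn_pos true n)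

end Pool.Agent.RAT
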