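import Pool.Agent.RAT.H.Stmt
import Pool.Agent.RAT.B.Ratio

/-!
RAT (C1): the final form in the half plane from the upper bound (helper37: `upper_of`) and the lower bound
(helper95: `dn_low`).
-/

namespace Pool.Agent.RAT

open Pool.Agent.Hhelper64.Two Pool.Agent.Hhelper14.SAW

lemma cn_true_le (n : ℕ) : cn true n ≤ an n := by
  rw [← cn_false]
  unfold cn
  refine Finset.card_le_card fun P hP => ?_
  rw [mem_WF] at hP ⊢
  exact ⟨hP.1, fun z _ h => absurd h (by decide)⟩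

theorem main_half {c : ℝ}
    (up : ∃ C : ℝ, 0 < C ∧ ∀ n : ℕ, 1 ≤ n → (dn n n : ℝ) / (cn true n : ℝ) ^ 2 ≤ C * (n : ℝ) ^ (-c))
    (lo : ∃ C : ℝ, 0 < C ∧ ∀ n : ℕ, 1 ≤ n → (n : ℝ) ^ (-C) / C ≤ (dn n n : ℝ) / mu ^ (n + n))
    (hpos : ∀ n, 0 < cn true n) :
    ∃ C : ℝ, 0 < C ∧ ∀ n : ℕ, 1 ≤ n →
      (n : ℝ) ^ (-C) / C ≤ P halfPlane n ∧ P halfPlane n ≤ C * (n : ℝ) ^ (-c) := by
  obtain ⟨K, hK, -, hup⟩ := an_bounds
  refine half_of hK up ?_ (fun n hn => ?_) hpos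
  · obtain ⟨C, hC, h⟩ := lo
    refine ⟨C, hC, fun n hn => ?_⟩
    have h1 := h n hn
    have hmu : 0 < mu ^ (n + n) := pow_pos mu_pos _
    rw [le_div_iff₀ hmu] at h1
    rwa [two_mul]
  · have : (cn true n : ℝ) ≤ (an n : ℝ) := by exact_mod_cast cn_true_le n
    exact this.trans (hup n hn)

end Pool.Agent.RAT
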