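import Pool.Agent.Hhelper64.T12.TwoDefs
import Pool.Agent.Hhelper14.SAW.Count
import Pool.Agent.RAT.D.Defs

/-!
RAT (C1): the half of the honeycomb lattice with `Re z ≥ 0`, its self-avoiding paths from `0`, and the translation
of the numbers of paths and of disjoint pairs into `cn true n`, `dn n n`.
-/

namespace Pool.Agent.RAT

open Pool.Agent.Hhelper64.Two Pool.Agent.Hhelper14.SAW

/-- The half of the honeycomb lattice with `Re z ≥ 0`; the vertex `0` lies on its boundary. -/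
def halfPlane : Set ℂ := {z | z ∈ honeycomb ∧ 0 ≤ z.re}

lemma emb_re (z : ℤ × ℤ) : (emb z).re = (F0 z : ℝ) / 2 := by
  unfold emb F0
  simp only [Complex.add_re, Complex.mul_re, Complex.intCast_re, Complex.intCast_im, omega_re]
  push_cast
  ring

lemma emb_re_nonneg (z : ℤ × ℤ) : 0 ≤ (emb z).re ↔ 0 ≤ F0 z := by
  rw [emb_re]
  constructor
  · intro h
    have : (0 : ℝ) ≤ (F0 z : ℝ) := by linarith
    exact_mod_cast this
  · intro h
    have : (0 : ℝ) ≤ (F0 z : ℝ) := by exact_mod_cast h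
    linarith

lemma mem_iff_pt {n : ℕ} {P : List (ℤ × ℤ)} (h : P.length = n + 1) {z : ℤ × ℤ} :
    z ∈ P ↔ ∃ i ≤ n, pt P i = z := by
  have h1 : z ∈ P ↔ z ∈ lst n (pt P) := by rw [lst_pt h]
  rw [h1]
  unfold lst
  rw [List.mem_reverse, List.mem_map]
  constructor
  · rintro ⟨i, hi, rfl⟩
    rw [List.mem_range] at hi
    exact ⟨i, by omega, rfl⟩
  · rintro ⟨i, hi, rfl⟩
    exact ⟨i, List.mem_range.2 (by omega), rfl⟩

lemma mem_W {n : ℕ} {P : List (ℤ × ℤ)} : P ∈ W true n ↔ IsWalk n P ∧ ∀ i ≤ n, 0 ≤ (emb (pt P i)).re := by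
  constructor
  · rintro ⟨h1, h2⟩
    refine ⟨h1, fun i hi => ?_⟩
    rw [emb_re_nonneg]
    exact h2 _ ((mem_iff_pt h1.1).2 ⟨i, hi, rfl⟩) rfl
  · rintro ⟨h1, h2⟩
    refine ⟨h1, fun z hz _ => ?_⟩
    obtain ⟨i, hi, rfl⟩ := (mem_iff_pt h1.1).1 hz
    rw [← emb_re_nonneg]
    exact h2 i hi

lemma Omega_half {n : ℕ} {w : Fin (n + 1) → ℂ} :
    w ∈ Omega halfPlane n ↔ w ∈ Pool.Agent.Hhelper14.Honeycomb.Omega n ∧ ∀ i, 0 ≤ (w i).re := by
  constructor
  · rintro ⟨h0, h1, h2, h3⟩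
    exact ⟨⟨h0, fun i => (h1 i).1, h2, h3⟩, fun i => (h1 i).2⟩
  · rintro ⟨⟨h0, h1, h2, h3⟩, h4⟩
    exact ⟨h0, fun i => ⟨h1 i, h4 i⟩, h2, h3⟩

lemma G_mem_half {n : ℕ} {P : List (ℤ × ℤ)} (h : P ∈ W true n) : G n P ∈ Omega halfPlane n := by
  rw [mem_W] at h
  rw [Omega_half]
  refine ⟨G_mem h.1, fun i => ?_⟩
  exact h.2 i (by omega)

lemma G_surj_half {n : ℕ} {w : Fin (n + 1) → ℂ} (hw : w ∈ Omega halfPlane n) : ∃ P ∈ W true n, G n P = w := by
  rw [Omega_half] at hw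
  obtain ⟨P, h1, h2⟩ := G_surj hw.1
  refine ⟨P, ?_, h2⟩
  rw [mem_W]
  refine ⟨h1, fun i hi => ?_⟩
  have := hw.2 ⟨i, by omega⟩
  rw [← h2] at this
  exact this

/-- The number of paths of length `n` in the half plane. -/
theorem a_half (n : ℕ) : a halfPlane n = cn true n := by
  unfold a cn WF
  rw [← Set.ncard_eq_toFinset_card _ (W_finite true n)]
  have : Omega halfPlane n = (G n) '' W true n := by
    ext w
    constructor
    · intro hw
      obtain ⟨P, h1, h2⟩ := G_surj_half hw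
      exact ⟨P, h1, h2⟩
    · rintro ⟨P, h1, rfl⟩
      exact G_mem_half h1
  rw [this]
  exact Set.InjOn.ncard_image fun P hP Q hQ h => G_inj hP.1 hQ.1 h

lemma emb_pt_zero {n : ℕ} {P : List (ℤ × ℤ)} (h : IsWalk n P) : pt P 0 = o := (fw_pt h).1

/-- The number of disjoint pairs of paths of length `n` in the half plane. -/
theorem pairs_half (n : ℕ) : (Pairs halfPlane n).ncard = dn n n := by
  unfold dn
  have : Pairs halfPlane n = (fun q : List (ℤ × ℤ) × List (ℤ × ℤ) => (G n q.1, G n q.2)) '' PD n n := by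
    ext ⟨w, w'⟩
    constructor
    · rintro ⟨h1, h2, h3⟩
      obtain ⟨P, g1, g2⟩ := G_surj_half h1
      obtain ⟨P', g1', g2'⟩ := G_surj_half h2
      refine ⟨(P, P'), ⟨g1, g1', ?_⟩, by simp only [g2, g2']⟩
      intro z hz hzo hz'
      obtain ⟨i, hi, rfl⟩ := (mem_iff_pt g1.1.1).1 hz
      obtain ⟨j, hj, hij⟩ := (mem_iff_pt g1'.1.1).1 hz'
      have hi0 : i ≠ 0 := by
        rintro rfl
        exact hzo (emb_pt_zero g1.1)
      refine h3 ⟨i, by omega⟩ ⟨j, by omega⟩ ?_ ?_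
      · intro h; apply hi0
        have := congrArg Fin.val h
        simpa using this
      · rw [← g2, ← g2']
        simp only [G]
        rw [hij]
    · rintro ⟨⟨P, P'⟩, ⟨h1, h2, h3⟩, h4⟩
      simp only [Prod.mk.injEq] at h4
      obtain ⟨rfl, rfl⟩ := h4
      refine ⟨G_mem_half h1, G_mem_half h2, ?_⟩
      intro i j hi0 heq
      have hpp : pt P i = pt P' j := emb_inj heq
      have hi : pt P i ≠ o := by
        intro h
        rw [← emb_pt_zero h1.1] at h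
        have := (fw_pt h1.1).2.2 i (by omega) 0 (by omega) h
        exact hi0 (Fin.ext (by simpa using this))
      refine h3 (pt P i) ((mem_iff_pt h1.1.1).2 ⟨i, by omega, rfl⟩) hi ?_
      rw [hpp]
      exact (mem_iff_pt h2.1.1).2 ⟨j, by omega, rfl⟩
  rw [this]
  refine Set.InjOn.ncard_image ?_
  rintro ⟨P, P'⟩ ⟨h1, h2, h3⟩ ⟨Q, Q'⟩ ⟨g1, g2, g3⟩ heq
  simp only [Prod.mk.injEq] at heq
  have e1 : P = Q := G_inj h1.1 g1.1 heq.1
  have e2 : P' = Q' := G_inj h2.1 g2.1 heq.2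
  rw [e1, e2]

theorem P_half (n : ℕ) : P halfPlane n = (dn n n : ℝ) / (cn true n : ℝ) ^ 2 := by
  unfold P
  rw [pairs_half, a_half]

/-- The form of the result from the two bounds in terms of `cn true n`, `dn n n`. -/
theorem half_of {c K : ℝ} (hK : 0 < K)
    (up : ∃ C : ℝ, 0 < C ∧ ∀ n : ℕ, 1 ≤ n → (dn n n : ℝ) / (cn true n : ℝ) ^ 2 ≤ C * (n : ℝ) ^ (-c))
    (lo : ∃ C : ℝ, 0 < C ∧ ∀ n : ℕ, 1 ≤ n → (n : ℝ) ^ (-C) / C * mu ^ (2 * n) ≤ (dn n n : ℝ))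
    (hup : ∀ n : ℕ, 1 ≤ n → (cn true n : ℝ) ≤ K * (n : ℝ) ^ K * mu ^ n) (hpos : ∀ n, 0 < cn true n) :
    ∃ C : ℝ, 0 < C ∧ ∀ n : ℕ, 1 ≤ n →
      (n : ℝ) ^ (-C) / C ≤ P halfPlane n ∧ P halfPlane n ≤ C * (n : ℝ) ^ (-c) := by
  obtain ⟨C1, hC1, h1⟩ := up
  obtain ⟨C2, hC2, h2⟩ := lo
  have hmu := mu_pos
  refine ⟨C1 + (C2 + 2 * K) + C2 * K ^ 2, by positivity, fun n hn => ⟨?_, ?_⟩⟩
  · rw [P_half]
    have hn0 : (0 : ℝ) < n := by exact_mod_cast hn
    have hn1 : (1 : ℝ) ≤ n := by exact_mod_cast hn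
    have hcn : (0 : ℝ) < (cn true n : ℝ) := by exact_mod_cast hpos n
    rw [le_div_iff₀ (by positivity)]
    refine le_trans ?_ (h2 n hn)
    have h3 : (cn true n : ℝ) ^ 2 ≤ (K * (n : ℝ) ^ K * mu ^ n) ^ 2 := pow_le_pow_left₀ hcn.le (hup n hn) 2
    have h4 : (K * (n : ℝ) ^ K * mu ^ n) ^ 2 = K ^ 2 * (n : ℝ) ^ (2 * K) * mu ^ (2 * n) := by
      rw [mul_pow, mul_pow, ← pow_mul, mul_comm n 2, ← Real.rpow_natCast ((n : ℝ) ^ K) 2, ← Real.rpow_mul hn0.le]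
      norm_num [mul_comm]
    rw [h4] at h3
    set S := C1 + (C2 + 2 * K) + C2 * K ^ 2 with hS
    have hS0 : 0 < S := by positivity
    have hS1 : C2 * K ^ 2 ≤ S := by rw [hS]; linarith
    have hS2 : C2 + 2 * K ≤ S := by
      have : 0 ≤ C2 * K ^ 2 := by positivity
      rw [hS]; linarith
    calc (n : ℝ) ^ (-S) / S * (cn true n : ℝ) ^ 2
        ≤ (n : ℝ) ^ (-S) / S * (K ^ 2 * (n : ℝ) ^ (2 * K) * mu ^ (2 * n)) :=
          mul_le_mul_of_nonneg_left h3 (by positivity)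
      _ = (n : ℝ) ^ (-S + 2 * K) * (K ^ 2 / S) * mu ^ (2 * n) := by
          rw [Real.rpow_add hn0]; ring
      _ ≤ (n : ℝ) ^ (-C2) * (1 / C2) * mu ^ (2 * n) := by
          refine mul_le_mul_of_nonneg_right ?_ (by positivity)
          refine mul_le_mul ?_ ?_ (by positivity) (by positivity)
          · exact Real.rpow_le_rpow_of_exponent_le hn1 (by linarith)
          · rw [div_le_div_iff₀ hS0 hC2]; linarith
      _ = (n : ℝ) ^ (-C2) / C2 * mu ^ (2 * n) := by ring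
  · rw [P_half]
    refine (h1 n hn).trans ?_
    refine mul_le_mul_of_nonneg_right ?_ (by positivity)
    have : 0 ≤ C2 * K ^ 2 := by positivity
    linarith

end Pool.Agent.RAT
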