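import Pool.Agent.RAT.A.Mul

/-!
Project RAT (C4): real analysis of the upper bound in the half plane.

`g n` = normalised number of half-plane walks, `w N k` = mass of the stopped bridges (first renewal level `≥ N`) with `k`
vertices, `av N k l` = mass of the avoiding pairs of stopped bridges, `D n` = normalised number of avoiding pairs.
From the ratio theorem in steps of 4: (H8) the ratio in steps of 2; (H9) `D n ≤ C n^(-c) g(n)^2`.
-/

namespace Pool.Agent.RAT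

open Filter Topology

private lemma ev_rpow_le {a b C : ℝ} (hab : a < b) : ∀ᶠ n : ℕ in atTop, C * (n : ℝ) ^ a ≤ (n : ℝ) ^ b := by
  have h : Tendsto (fun x : ℝ => x ^ (b - a)) atTop atTop := tendsto_rpow_atTop (by linarith)
  have h1 := (h.comp tendsto_natCast_atTop_atTop).eventually_ge_atTop C
  filter_upwards [h1, eventually_ge_atTop 1] with n hn hn1
  have hn0 : (0 : ℝ) < n := by exact_mod_cast hn1
  simp only [Function.comp] at hn
  calc C * (n : ℝ) ^ a ≤ (n : ℝ) ^ (b - a) * (n : ℝ) ^ a := by gcongr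
    _ = (n : ℝ) ^ b := by
      rw [← Real.rpow_add hn0]
      congr 1
      ring

/-- Several steps of length 4, at `n` and at `n - 2`. -/
private lemma step4 {g : ℕ → ℝ} (hg : ∀ n, 0 < g n) {A β b : ℝ} (hA : 0 < A) (hβ : 0 < β) (hβ1 : β ≤ 1) (hb : b < β)
    (r4 : ∀ n : ℕ, 1 ≤ n → |g (n + 4) / g n - 1| ≤ A / (n : ℝ) ^ β) :
    ∀ᶠ n : ℕ in atTop, ∀ j : ℕ, 4 * (j : ℝ) ≤ (n : ℝ) ^ b →
      |g (n - 4 * j) / g n - 1| ≤ 2 * A * (n : ℝ) ^ (b - β) ∧
      |g (n - 2 - 4 * j) / g (n - 2) - 1| ≤ 4 * A * (n : ℝ) ^ (b - β) := by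
  have h1 := ev_rpow_le (a := b) (b := β) (C := 4 * A) hb
  have h2 := ev_rpow_le (a := b) (b := 1) (C := 4) (by linarith)
  filter_upwards [h1, h2, eventually_ge_atTop 4] with n hn1 hn2 hn4 j hj
  have hn0 : (0 : ℝ) < n := by exact_mod_cast (by omega : 0 < n)
  rw [Real.rpow_one] at hn2
  have hr : ∀ n : ℕ, 1 ≤ n → |g (n + 4) / (1 ^ 4 * g n) - 1| ≤ A / (n : ℝ) ^ β := by
    intro n hn
    rw [one_pow, one_mul]
    exact r4 n hn
  have hnb : 0 < (n : ℝ) ^ β := by positivity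
  have h8j : 2 * (4 * j) ≤ n - 2 := by
    have : 16 * (j : ℝ) ≤ n := by nlinarith
    have h3 : 16 * j ≤ n := by exact_mod_cast this
    omega
  have e1 : (n : ℝ) ^ (b - β) = (n : ℝ) ^ b / (n : ℝ) ^ β := Real.rpow_sub hn0 _ _
  have hAj : 4 * (A * j) ≤ A * (n : ℝ) ^ b := by nlinarith
  constructor
  · have h := ratio_mul_back hg one_pos hA.le hβ.le hβ1 hr n j (by omega) (by omega) (by nlinarith)
    rw [one_pow, one_mul] at h
    refine h.trans ?_
    rw [e1, ← mul_div_assoc]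
    exact div_le_div_of_nonneg_right (by linarith) hnb.le
  · have hn2' : (n : ℝ) / 2 ≤ ((n - 2 : ℕ) : ℝ) := by
      have : n ≤ 2 * (n - 2) := by omega
      have h' : (n : ℝ) ≤ 2 * ((n - 2 : ℕ) : ℝ) := by exact_mod_cast this
      linarith
    have h3 : (n : ℝ) ^ β ≤ 2 * ((n - 2 : ℕ) : ℝ) ^ β := by
      have h4 : (n : ℝ) ≤ 2 * ((n - 2 : ℕ) : ℝ) := by linarith
      calc (n : ℝ) ^ β ≤ (2 * ((n - 2 : ℕ) : ℝ)) ^ β := Real.rpow_le_rpow hn0.le h4 hβ.le
        _ = 2 ^ β * ((n - 2 : ℕ) : ℝ) ^ β := Real.mul_rpow (by norm_num) (Nat.cast_nonneg _)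
        _ ≤ 2 * ((n - 2 : ℕ) : ℝ) ^ β := by
          gcongr
          calc (2 : ℝ) ^ β ≤ 2 ^ (1 : ℝ) := Real.rpow_le_rpow_of_exponent_le (by norm_num) hβ1
            _ = 2 := Real.rpow_one _
    have hnb' : 0 < ((n - 2 : ℕ) : ℝ) ^ β := by
      have : (0 : ℝ) < ((n - 2 : ℕ) : ℝ) := by linarith
      positivity
    have h := ratio_mul_back hg one_pos hA.le hβ.le hβ1 hr (n - 2) j (by omega) (by omega) (by nlinarith)
    rw [one_pow, one_mul] at h
    refine h.trans ?_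
    rw [e1, ← mul_div_assoc, div_le_div_iff₀ hnb' hnb]
    nlinarith [mul_le_mul_of_nonneg_left h3 (by positivity : 0 ≤ 8 * A * j)]

/-- (H8): the ratio in steps of 2. -/
private lemma step2 {g : ℕ → ℝ} (hg : ∀ n, 0 < g n) {A β b c : ℝ} (hA : 0 < A) (hβ : 0 < β) (hβ1 : β ≤ 1) (hb0 : 0 < b)
    (hb : b < β) (hc : 0 < c) (hcb : c ≤ β - b)
    (r4 : ∀ n : ℕ, 1 ≤ n → |g (n + 4) / g n - 1| ≤ A / (n : ℝ) ^ β)
    {w : ℕ → ℝ} (w0 : ∀ k, 0 ≤ w k) (wodd : ∀ k, k % 2 = 1 → w k = 0) {q : ℝ} (hq : 0 < q) (w2 : q ≤ w 2)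
    (hi : ∀ n K : ℕ, K ≤ n → ∑ k ∈ Finset.range (K + 1), w k * g (n - k) ≤ g n)
    {T τ : ℝ} (hT : 0 < T) (hτc : c ≤ b * τ) (hτ : 0 < τ)
    (tail : ∀ K : ℕ, 1 ≤ K → 1 - T * (K : ℝ) ^ (-τ) ≤ ∑ k ∈ Finset.range (K + 1), w k) :
    ∃ Y : ℝ, 0 < Y ∧ ∀ᶠ n : ℕ in atTop, |g (n - 2) / g n - 1| ≤ Y * (n : ℝ) ^ (-c) := by
  -- upper half
  obtain ⟨Y, hY, hup⟩ : ∃ Y : ℝ, 0 < Y ∧ ∀ᶠ n : ℕ in atTop, g (n - 2) ≤ (1 + Y * (n : ℝ) ^ (-c)) * g n := by
    refine ⟨(T * 2 ^ τ + 8 * A) / q, by positivity, ?_⟩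
    have h4 := step4 hg hA hβ hβ1 hb r4
    have h5 := ev_rpow_le (a := 0) (b := b) (C := 4) hb0
    have h6 := ev_rpow_le (a := b) (b := β) (C := 8 * A) hb
    have h7 := ev_rpow_le (a := b) (b := 1) (C := 4) (by linarith)
    filter_upwards [h4, h5, h6, h7, eventually_ge_atTop 4] with n hn4 hn5 hn6 hn7 hnn
    have hn0 : (0 : ℝ) < n := by exact_mod_cast (by omega : 0 < n)
    have hn1 : (1 : ℝ) ≤ n := by exact_mod_cast (by omega : 1 ≤ n)
    rw [Real.rpow_zero, mul_one] at hn5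
    rw [Real.rpow_one] at hn7
    have hnb : 0 < (n : ℝ) ^ β := by positivity
    set K : ℕ := ⌊(n : ℝ) ^ b⌋₊ with hK
    have hKle : (K : ℝ) ≤ (n : ℝ) ^ b := Nat.floor_le (by positivity)
    have hKlt : (n : ℝ) ^ b < K + 1 := Nat.lt_floor_add_one _
    have hK2 : (n : ℝ) ^ b / 2 ≤ K := by linarith
    have hK3 : 3 ≤ K := by
      have : (3 : ℝ) < K + 1 := by linarith
      have : 3 < K + 1 := by exact_mod_cast this
      omega
    have hKn : K ≤ n := by
      have : (K : ℝ) ≤ n := by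
        have : 0 ≤ (n : ℝ) ^ b := by positivity
        linarith
      exact_mod_cast this
    set x : ℝ := 4 * A * (n : ℝ) ^ (b - β) with hx
    have hx0 : 0 < x := by positivity
    have hxe : x = 4 * A * (n : ℝ) ^ b / (n : ℝ) ^ β := by
      rw [hx, Real.rpow_sub hn0]
      ring
    have hx2 : x ≤ 1 / 2 := by
      rw [hxe, div_le_iff₀ hnb]
      linarith
    have hgn := hg n
    have hgn2 := hg (n - 2)
    have hlow : ∀ k ∈ Finset.range (K + 1), w k * ((1 - x) * (if k % 4 = 0 then g n else g (n - 2))) ≤ w k * g (n - k) := by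
      intro k hk
      have hkK : k ≤ K := by
        have := Finset.mem_range.1 hk
        omega
      rcases Nat.mod_two_eq_zero_or_one k with hk2 | hk2
      · refine mul_le_mul_of_nonneg_left ?_ (w0 k)
        obtain ⟨j, hj⟩ : ∃ j, k = 4 * j ∨ k = 4 * j + 2 := ⟨k / 4, by omega⟩
        have hjn : 4 * (j : ℝ) ≤ (n : ℝ) ^ b := by
          have h9 : 4 * j ≤ K := by omega
          have h10 : 4 * (j : ℝ) ≤ K := by exact_mod_cast h9
          linarith
        obtain ⟨h11, h12⟩ := hn4 j hjn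
        rcases hj with hj | hj
        · rw [if_pos (by omega), hj]
          have h13 := (abs_le.1 h11).1
          have h14 : (1 - x) ≤ g (n - 4 * j) / g n := by
            have : 2 * A * (n : ℝ) ^ (b - β) ≤ x := by
              rw [hx]
              have : 0 < A * (n : ℝ) ^ (b - β) := by positivity
              nlinarith
            linarith
          rwa [le_div_iff₀ hgn] at h14
        · rw [if_neg (by omega), hj]
          have h13 := (abs_le.1 h12).1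
          have h14 : (1 - x) ≤ g (n - 2 - 4 * j) / g (n - 2) := by
            rw [hx]
            linarith
          rw [le_div_iff₀ hgn2] at h14
          have e : n - (4 * j + 2) = n - 2 - 4 * j := by omega
          rw [e]
          exact h14
      · rw [wodd k hk2]
        simp
    have hsum := (Finset.sum_le_sum hlow).trans (hi n K hKn)
    set p0 : ℝ := ∑ k ∈ Finset.range (K + 1), (if k % 4 = 0 then w k else 0) with hp0
    set p2 : ℝ := ∑ k ∈ Finset.range (K + 1), (if k % 4 = 0 then 0 else w k) with hp2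
    have hp02 : p0 + p2 = ∑ k ∈ Finset.range (K + 1), w k := by
      rw [hp0, hp2, ← Finset.sum_add_distrib]
      refine Finset.sum_congr rfl fun k _ => ?_
      split_ifs <;> simp
    have hp2q : q ≤ p2 := by
      have h15 : ∀ k ∈ Finset.range (K + 1), 0 ≤ (if k % 4 = 0 then 0 else w k) := by
        intro k _
        split_ifs
        · exact le_rfl
        · exact w0 k
      have h16 := Finset.single_le_sum h15 (Finset.mem_range.2 (by omega : 2 < K + 1))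
      rw [if_neg (by norm_num)] at h16
      exact w2.trans h16
    have hsum' : ∑ k ∈ Finset.range (K + 1), w k * ((1 - x) * (if k % 4 = 0 then g n else g (n - 2))) =
        (1 - x) * (p0 * g n + p2 * g (n - 2)) := by
      rw [hp0, hp2, Finset.sum_mul, Finset.sum_mul, ← Finset.sum_add_distrib, Finset.mul_sum]
      refine Finset.sum_congr rfl fun k _ => ?_
      split_ifs <;> ring
    rw [hsum'] at hsum
    have htail := tail K (by omega)
    rw [← hp02] at htail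
    -- the tail
    have hKt : (K : ℝ) ^ (-τ) ≤ 2 ^ τ * (n : ℝ) ^ (-c) := by
      have hK0 : (0 : ℝ) < (n : ℝ) ^ b / 2 := by positivity
      calc (K : ℝ) ^ (-τ) ≤ ((n : ℝ) ^ b / 2) ^ (-τ) := Real.rpow_le_rpow_of_nonpos hK0 hK2 (by linarith)
        _ = 2 ^ τ * (n : ℝ) ^ (-(b * τ)) := by
          rw [Real.div_rpow (by positivity) (by norm_num), ← Real.rpow_mul hn0.le, Real.rpow_neg (by norm_num : (0:ℝ) ≤ 2)]
          have e : b * -τ = -(b * τ) := by ring
          rw [e]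
          field_simp
        _ ≤ 2 ^ τ * (n : ℝ) ^ (-c) := by
          gcongr
    have hxc : x ≤ 4 * A * (n : ℝ) ^ (-c) := by
      rw [hx]
      gcongr
      linarith
    -- conclusion
    set ρ : ℝ := g (n - 2) / g n with hρ
    have hρe : g (n - 2) = ρ * g n := by rw [hρ]; field_simp
    have hρ0 : 0 < ρ := by positivity
    rw [hρe] at hsum ⊢
    have h17 : (1 - x) * (p0 + p2 * ρ) ≤ 1 := by
      have h18 : (1 - x) * (p0 * g n + p2 * (ρ * g n)) = ((1 - x) * (p0 + p2 * ρ)) * g n := by ring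
      rw [h18] at hsum
      exact le_of_mul_le_mul_right (by linarith) hgn
    have hp00 : 0 ≤ p0 := Finset.sum_nonneg fun k _ => by
      split_ifs
      · exact w0 k
      · exact le_rfl
    have h19 : p0 + p2 * ρ ≤ 1 + 2 * x := by
      have h20 : 0 ≤ p0 + p2 * ρ := by
        have := hq.le.trans hp2q
        positivity
      nlinarith
    have h21 : p2 * ρ ≤ p2 + (T * (K : ℝ) ^ (-τ) + 2 * x) := by linarith
    have h22 : T * (K : ℝ) ^ (-τ) + 2 * x ≤ (T * 2 ^ τ + 8 * A) * (n : ℝ) ^ (-c) := by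
      have := mul_le_mul_of_nonneg_left hKt hT.le
      nlinarith
    have hnc : 0 < (n : ℝ) ^ (-c) := by positivity
    have h23 : ρ ≤ 1 + (T * 2 ^ τ + 8 * A) / q * (n : ℝ) ^ (-c) := by
      have hp20 : 0 < p2 := hq.trans_le hp2q
      have h24 : p2 * ρ ≤ p2 * (1 + (T * 2 ^ τ + 8 * A) / q * (n : ℝ) ^ (-c)) := by
        have h25 : (T * 2 ^ τ + 8 * A) * (n : ℝ) ^ (-c) ≤ p2 * ((T * 2 ^ τ + 8 * A) / q * (n : ℝ) ^ (-c)) := by
          have e : p2 * ((T * 2 ^ τ + 8 * A) / q * (n : ℝ) ^ (-c)) =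
              (p2 / q) * ((T * 2 ^ τ + 8 * A) * (n : ℝ) ^ (-c)) := by ring
          rw [e]
          have h26 : 1 ≤ p2 / q := by rw [le_div_iff₀ hq]; linarith
          exact le_mul_of_one_le_left (by positivity) h26
        linarith
      exact le_of_mul_le_mul_left h24 hp20
    exact mul_le_mul_of_nonneg_right h23 hgn.le
  -- both halves
  refine ⟨2 * Y + 2 * A + Y, by positivity, ?_⟩
  have h4 := step4 hg hA hβ hβ1 hb r4
  have hup2 := (tendsto_sub_atTop_nat 2).eventually hup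
  have h5 := ev_rpow_le (a := 0) (b := b) (C := 4) hb0
  filter_upwards [h4, hup, hup2, h5, eventually_ge_atTop 4] with n hn4 hnu hnu2 hn5 hnn
  have hn0 : (0 : ℝ) < n := by exact_mod_cast (by omega : 0 < n)
  have hn1 : (1 : ℝ) ≤ n := by exact_mod_cast (by omega : 1 ≤ n)
  rw [Real.rpow_zero, mul_one] at hn5
  have hgn := hg n
  have hgn2 := hg (n - 2)
  have hnc : 0 < (n : ℝ) ^ (-c) := by positivity
  have h1 := (hn4 1 (by push_cast; linarith)).1
  have hx : 2 * A * (n : ℝ) ^ (b - β) ≤ 2 * A * (n : ℝ) ^ (-c) := by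
    gcongr
    linarith
  have h2 : ((n - 2 : ℕ) : ℝ) ^ (-c) ≤ 2 * (n : ℝ) ^ (-c) := by
    have h3 : (n : ℝ) / 2 ≤ ((n - 2 : ℕ) : ℝ) := by
      have : n ≤ 2 * (n - 2) := by omega
      have h' : (n : ℝ) ≤ 2 * ((n - 2 : ℕ) : ℝ) := by exact_mod_cast this
      linarith
    calc ((n - 2 : ℕ) : ℝ) ^ (-c) ≤ ((n : ℝ) / 2) ^ (-c) := Real.rpow_le_rpow_of_nonpos (by positivity) h3 (by linarith)
      _ = 2 ^ c * (n : ℝ) ^ (-c) := by
        rw [Real.div_rpow hn0.le (by norm_num), Real.rpow_neg (by norm_num : (0:ℝ) ≤ 2)]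
        field_simp
      _ ≤ 2 * (n : ℝ) ^ (-c) := by
        gcongr
        calc (2 : ℝ) ^ c ≤ 2 ^ (1 : ℝ) := Real.rpow_le_rpow_of_exponent_le (by norm_num) (by linarith)
          _ = 2 := Real.rpow_one _
  set z : ℝ := (n : ℝ) ^ (-c) with hz
  set ρ : ℝ := g (n - 2) / g n with hρ
  have hρe : g (n - 2) = ρ * g n := by rw [hρ]; field_simp
  have hρ0 : 0 < ρ := by positivity
  have hρu : ρ ≤ 1 + Y * z := by
    rw [hρ, div_le_iff₀ hgn]
    exact hnu
  have hl1 : (1 - 2 * A * z) * g n ≤ g (n - 4) := by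
    have h6 := (abs_le.1 h1).1
    have h7 : 1 - 2 * A * z ≤ g (n - 4 * 1) / g n := by linarith
    rw [le_div_iff₀ hgn] at h7
    exact h7
  have hl2 : g (n - 4) ≤ (1 + 2 * Y * z) * (ρ * g n) := by
    have e : n - 2 - 2 = n - 4 := by omega
    rw [e] at hnu2
    refine hnu2.trans ?_
    rw [← hρe]
    have h8 := mul_le_mul_of_nonneg_left h2 hY.le
    exact mul_le_mul_of_nonneg_right (by linarith) hgn2.le
  have hl3 : 1 - 2 * A * z ≤ (1 + 2 * Y * z) * ρ := by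
    have h9 : (1 - 2 * A * z) * g n ≤ ((1 + 2 * Y * z) * ρ) * g n := by linarith
    exact le_of_mul_le_mul_right h9 hgn
  have hYz : 0 < Y * z := by positivity
  have hAz : 0 < A * z := by positivity
  rw [abs_le]
  constructor
  · by_cases h10 : 1 ≤ ρ
    · nlinarith
    · push Not at h10
      nlinarith
  · nlinarith

/-- From large `n` to all `n ≥ 1`. -/
private lemma all_of_ev {g D : ℕ → ℝ} (hg : ∀ n, 0 < g n) {Y c : ℝ} (hY : 0 < Y)
    (h : ∀ᶠ n : ℕ in atTop, D n ≤ Y * (n : ℝ) ^ (-c) * g n ^ 2) :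
    ∃ C : ℝ, 0 < C ∧ ∀ n : ℕ, 1 ≤ n → D n ≤ C * (n : ℝ) ^ (-c) * g n ^ 2 := by
  obtain ⟨n₁, hn₁⟩ := eventually_atTop.1 h
  refine ⟨Y + ∑ n ∈ Finset.range n₁, |D n| / ((n : ℝ) ^ (-c) * g n ^ 2), ?_, fun n hn => ?_⟩
  · have : 0 ≤ ∑ n ∈ Finset.range n₁, |D n| / ((n : ℝ) ^ (-c) * g n ^ 2) := Finset.sum_nonneg fun n _ => by positivity
    linarith
  · have hn0 : (0 : ℝ) < n := by exact_mod_cast hn
    have hs : ∀ n ∈ Finset.range n₁, 0 ≤ |D n| / ((n : ℝ) ^ (-c) * g n ^ 2) := fun n _ => by positivity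
    have hgn := hg n
    have hz : 0 < (n : ℝ) ^ (-c) * g n ^ 2 := by positivity
    rw [mul_assoc, ← div_le_iff₀ hz]
    by_cases h : n < n₁
    · have h1 := Finset.single_le_sum hs (Finset.mem_range.2 h)
      have h2 : D n / ((n : ℝ) ^ (-c) * g n ^ 2) ≤ |D n| / ((n : ℝ) ^ (-c) * g n ^ 2) :=
        div_le_div_of_nonneg_right (le_abs_self _) hz.le
      linarith
    · have h1 := hn₁ n (by omega)
      rw [mul_assoc, ← div_le_iff₀ hz] at h1
      have := Finset.sum_nonneg hs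
      linarith

/-- (H9), normalised: UPPER BOUND IN THE HALF PLANE. -/
theorem norm_upper {g : ℕ → ℝ} (hg : ∀ n, 0 < g n) {A β a b c : ℝ} (hA : 0 < A) (hβ : 0 < β) (hβ1 : β ≤ 1) (ha : 0 < a)
    (hb0 : 0 < b) (hb : b < β) (hc : 0 < c) (hcb : c ≤ β - b)
    (r4 : ∀ n : ℕ, 1 ≤ n → |g (n + 4) / g n - 1| ≤ A / (n : ℝ) ^ β)
    {w : ℕ → ℕ → ℝ} (w0 : ∀ N k, 0 ≤ w N k) (wodd : ∀ N k, 1 ≤ N → k % 2 = 1 → w N k = 0)
    {q : ℝ} (hq : 0 < q) (w2 : q ≤ w 1 2)
    (hi : ∀ N n K : ℕ, 1 ≤ N → K ≤ n → ∑ k ∈ Finset.range (K + 1), w N k * g (n - k) ≤ g n)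
    {T σ τ θ : ℝ} (hT : 0 < T) (hσ : 0 ≤ σ) (hτ : 0 < τ) (hθ : 0 ≤ θ) (hτc : c + a * σ ≤ b * τ) (hθc : c ≤ a * θ)
    (tail : ∀ N K : ℕ, 1 ≤ N → 1 ≤ K → 1 - T * (N : ℝ) ^ σ * (K : ℝ) ^ (-τ) ≤ ∑ k ∈ Finset.range (K + 1), w N k)
    {av : ℕ → ℕ → ℕ → ℝ} (av0 : ∀ N k l, 0 ≤ av N k l)
    (avodd : ∀ N k l, 1 ≤ N → k % 2 = 1 ∨ l % 2 = 1 → av N k l = 0)
    (avs : ∀ N K : ℕ, 1 ≤ N → ∑ k ∈ Finset.range (K + 1), ∑ l ∈ Finset.range (K + 1), av N k l ≤ T * (N : ℝ) ^ (-θ))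
    {D : ℕ → ℝ} (hii : ∀ N n K : ℕ, 1 ≤ N → K ≤ n →
      D n ≤ ∑ k ∈ Finset.range (K + 1), ∑ l ∈ Finset.range (K + 1), av N k l * g (n - k) * g (n - l) +
        2 * g n * (g n - ∑ k ∈ Finset.range (K + 1), w N k * g (n - k))) :
    ∃ C : ℝ, 0 < C ∧ ∀ n : ℕ, 1 ≤ n → D n ≤ C * (n : ℝ) ^ (-c) * g n ^ 2 := by
  have hasig : 0 ≤ a * σ := by positivity
  obtain ⟨Y, hY, h2s⟩ := step2 hg hA hβ hβ1 hb0 hb hc hcb r4 (w0 1) (fun k => wodd 1 k le_rfl) hq w2
    (fun n K => hi 1 n K le_rfl) hT (by linarith) hτ (fun K hK => by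
      have := tail 1 K le_rfl hK
      simpa using this)
  have h4 := step4 hg hA hβ hβ1 hb r4
  have h5 := ev_rpow_le (a := 0) (b := b) (C := 4) hb0
  have h6 := ev_rpow_le (a := 0) (b := a) (C := 4) ha
  have h7 := ev_rpow_le (a := b) (b := 1) (C := 4) (by linarith)
  have h8 := ev_rpow_le (a := -c) (b := 0) (C := 8 * (4 * A + Y)) (by linarith)
  refine all_of_ev hg (Y := 4 * (T * 2 ^ θ) + 2 * ((4 * A + Y) + T * 2 ^ τ)) (by positivity) ?_
  filter_upwards [h2s, h4, h5, h6, h7, h8, eventually_ge_atTop 4] with n hn2 hn4 hn5 hn6 hn7 hn8 hnn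
  have hn0 : (0 : ℝ) < n := by exact_mod_cast (by omega : 0 < n)
  have hn1 : (1 : ℝ) ≤ n := by exact_mod_cast (by omega : 1 ≤ n)
  rw [Real.rpow_zero, mul_one] at hn5 hn6
  rw [Real.rpow_zero] at hn8
  rw [Real.rpow_one] at hn7
  set K : ℕ := ⌊(n : ℝ) ^ b⌋₊ with hK
  have hKle : (K : ℝ) ≤ (n : ℝ) ^ b := Nat.floor_le (by positivity)
  have hKlt : (n : ℝ) ^ b < K + 1 := Nat.lt_floor_add_one _
  have hK2 : (n : ℝ) ^ b / 2 ≤ K := by linarith
  have hK3 : 3 ≤ K := by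
    have : (3 : ℝ) < K + 1 := by linarith
    have : 3 < K + 1 := by exact_mod_cast this
    omega
  have hKn : K ≤ n := by
    have : (K : ℝ) ≤ n := by
      have : 0 ≤ (n : ℝ) ^ b := by positivity
      linarith
    exact_mod_cast this
  set N : ℕ := ⌊(n : ℝ) ^ a⌋₊ with hN
  have hNle : (N : ℝ) ≤ (n : ℝ) ^ a := Nat.floor_le (by positivity)
  have hNlt : (n : ℝ) ^ a < N + 1 := Nat.lt_floor_add_one _
  have hN2 : (n : ℝ) ^ a / 2 ≤ N := by linarith
  have hN3 : 3 ≤ N := by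
    have : (3 : ℝ) < N + 1 := by linarith
    have : 3 < N + 1 := by exact_mod_cast this
    omega
  have hN1 : 1 ≤ N := by omega
  have hN0 : (0 : ℝ) < N := by exact_mod_cast (by omega : 0 < N)
  have hgn := hg n
  have hgn2 := hg (n - 2)
  set z : ℝ := (n : ℝ) ^ (-c) with hz
  have hz0 : 0 < z := by positivity
  have hxz : 4 * A * (n : ℝ) ^ (b - β) ≤ 4 * A * z := by
    rw [hz]
    gcongr
    linarith
  have hxz' : 2 * A * (n : ℝ) ^ (b - β) ≤ 4 * A * (n : ℝ) ^ (b - β) := by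
    have : 0 < A * (n : ℝ) ^ (b - β) := by positivity
    nlinarith
  -- the ratios
  have hrat : ∀ k ≤ K, k % 2 = 0 → (1 - (4 * A + Y) * z) * g n ≤ g (n - k) ∧ g (n - k) ≤ 2 * g n := by
    intro k hk hk2
    obtain ⟨j, hj⟩ : ∃ j, k = 4 * j ∨ k = 4 * j + 2 := ⟨k / 4, by omega⟩
    have hjn : 4 * (j : ℝ) ≤ (n : ℝ) ^ b := by
      have h9 : 4 * j ≤ K := by omega
      have h10 : 4 * (j : ℝ) ≤ K := by exact_mod_cast h9
      linarith
    obtain ⟨h11, h12⟩ := hn4 j hjn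
    have hAz : 0 < A * z := by positivity
    have hYz : 0 < Y * z := by positivity
    have hAYz : 8 * ((4 * A + Y) * z) ≤ 1 := by linarith
    rcases hj with hj | hj
    · rw [hj]
      have h13 := abs_le.1 h11
      have h14 : 1 - (4 * A + Y) * z ≤ g (n - 4 * j) / g n := by nlinarith
      have h15 : g (n - 4 * j) / g n ≤ 2 := by nlinarith
      rw [le_div_iff₀ hgn] at h14
      rw [div_le_iff₀ hgn] at h15
      exact ⟨h14, h15⟩
    · have e : n - k = n - 2 - 4 * j := by omega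
      rw [e]
      have h13 := abs_le.1 h12
      have h14 : 1 - 4 * A * z ≤ g (n - 2 - 4 * j) / g (n - 2) := by linarith
      have h15 : g (n - 2 - 4 * j) / g (n - 2) ≤ 1 + 4 * A * z := by linarith
      rw [le_div_iff₀ hgn2] at h14
      rw [div_le_iff₀ hgn2] at h15
      have h16 := abs_le.1 hn2
      have h17 : 1 - Y * z ≤ g (n - 2) / g n := by linarith
      have h18 : g (n - 2) / g n ≤ 1 + Y * z := by linarith
      rw [le_div_iff₀ hgn] at h17
      rw [div_le_iff₀ hgn] at h18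
      constructor
      · refine le_trans ?_ h14
        have h19 : (1 - 4 * A * z) * ((1 - Y * z) * g n) ≤ (1 - 4 * A * z) * g (n - 2) :=
          mul_le_mul_of_nonneg_left h17 (by nlinarith)
        refine le_trans ?_ h19
        have h20 : 0 ≤ (4 * A * z) * (Y * z) := by positivity
        have h21 : 0 ≤ (4 * A * z) * (Y * z) * g n := by positivity
        nlinarith
      · refine h15.trans ?_
        have h19 : (1 + 4 * A * z) * g (n - 2) ≤ (1 + 4 * A * z) * ((1 + Y * z) * g n) :=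
          mul_le_mul_of_nonneg_left h18 (by nlinarith)
        refine h19.trans ?_
        have h20 : (1 + 4 * A * z) * (1 + Y * z) ≤ 2 := by nlinarith
        calc (1 + 4 * A * z) * ((1 + Y * z) * g n) = ((1 + 4 * A * z) * (1 + Y * z)) * g n := by ring
          _ ≤ 2 * g n := mul_le_mul_of_nonneg_right h20 hgn.le
  have hmain := hii N n K hN1 hKn
  -- first sum
  have hS1 : ∑ k ∈ Finset.range (K + 1), ∑ l ∈ Finset.range (K + 1), av N k l * g (n - k) * g (n - l) ≤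
      4 * (T * 2 ^ θ) * z * g n ^ 2 := by
    have h22 : ∑ k ∈ Finset.range (K + 1), ∑ l ∈ Finset.range (K + 1), av N k l * g (n - k) * g (n - l) ≤
        ∑ k ∈ Finset.range (K + 1), ∑ l ∈ Finset.range (K + 1), av N k l * (4 * g n ^ 2) := by
      refine Finset.sum_le_sum fun k hk => Finset.sum_le_sum fun l hl => ?_
      have hkK : k ≤ K := by have := Finset.mem_range.1 hk; omega
      have hlK : l ≤ K := by have := Finset.mem_range.1 hl; omega
      by_cases hkl : k % 2 = 1 ∨ l % 2 = 1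
      · rw [avodd N k l hN1 hkl]
        simp
      · push Not at hkl
        have h23 := (hrat k hkK (by omega)).2
        have h24 := (hrat l hlK (by omega)).2
        rw [mul_assoc]
        refine mul_le_mul_of_nonneg_left ?_ (av0 N k l)
        calc g (n - k) * g (n - l) ≤ (2 * g n) * (2 * g n) :=
              mul_le_mul h23 h24 (hg _).le (by positivity)
          _ = 4 * g n ^ 2 := by ring
    refine h22.trans ?_
    have h25 : ∑ k ∈ Finset.range (K + 1), ∑ l ∈ Finset.range (K + 1), av N k l * (4 * g n ^ 2) =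
        (∑ k ∈ Finset.range (K + 1), ∑ l ∈ Finset.range (K + 1), av N k l) * (4 * g n ^ 2) := by
      rw [Finset.sum_mul]
      refine Finset.sum_congr rfl fun k _ => ?_
      rw [Finset.sum_mul]
    rw [h25]
    have h26 : (N : ℝ) ^ (-θ) ≤ 2 ^ θ * z := by
      calc (N : ℝ) ^ (-θ) ≤ ((n : ℝ) ^ a / 2) ^ (-θ) := Real.rpow_le_rpow_of_nonpos (by positivity) hN2 (by linarith)
        _ = 2 ^ θ * (n : ℝ) ^ (-(a * θ)) := by
          rw [Real.div_rpow (by positivity) (by norm_num), ← Real.rpow_mul hn0.le, Real.rpow_neg (by norm_num : (0:ℝ) ≤ 2)]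
          have e : a * -θ = -(a * θ) := by ring
          rw [e]
          field_simp
        _ ≤ 2 ^ θ * z := by
          rw [hz]
          gcongr
    calc (∑ k ∈ Finset.range (K + 1), ∑ l ∈ Finset.range (K + 1), av N k l) * (4 * g n ^ 2)
        ≤ (T * (N : ℝ) ^ (-θ)) * (4 * g n ^ 2) := by
          gcongr
          exact avs N K hN1
      _ ≤ (T * (2 ^ θ * z)) * (4 * g n ^ 2) := by gcongr
      _ = _ := by ring
  -- second sum
  have hS2 : g n - ∑ k ∈ Finset.range (K + 1), w N k * g (n - k) ≤ ((4 * A + Y) + T * 2 ^ τ) * z * g n := by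
    have h27 : ∑ k ∈ Finset.range (K + 1), w N k * ((1 - (4 * A + Y) * z) * g n) ≤
        ∑ k ∈ Finset.range (K + 1), w N k * g (n - k) := by
      refine Finset.sum_le_sum fun k hk => ?_
      have hkK : k ≤ K := by have := Finset.mem_range.1 hk; omega
      rcases Nat.mod_two_eq_zero_or_one k with hk2 | hk2
      · exact mul_le_mul_of_nonneg_left (hrat k hkK hk2).1 (w0 N k)
      · rw [wodd N k hN1 hk2]
        simp
    rw [← Finset.sum_mul] at h27
    have h28 := tail N K hN1 (by omega)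
    have h29 : T * (N : ℝ) ^ σ * (K : ℝ) ^ (-τ) ≤ T * 2 ^ τ * z := by
      have h30 : (K : ℝ) ^ (-τ) ≤ 2 ^ τ * (n : ℝ) ^ (-(b * τ)) := by
        calc (K : ℝ) ^ (-τ) ≤ ((n : ℝ) ^ b / 2) ^ (-τ) := Real.rpow_le_rpow_of_nonpos (by positivity) hK2 (by linarith)
          _ = 2 ^ τ * (n : ℝ) ^ (-(b * τ)) := by
            rw [Real.div_rpow (by positivity) (by norm_num), ← Real.rpow_mul hn0.le, Real.rpow_neg (by norm_num : (0:ℝ) ≤ 2)]
            have e : b * -τ = -(b * τ) := by ring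
            rw [e]
            field_simp
      have h31 : (N : ℝ) ^ σ ≤ (n : ℝ) ^ (a * σ) := by
        rw [Real.rpow_mul hn0.le]
        exact Real.rpow_le_rpow hN0.le hNle hσ
      calc T * (N : ℝ) ^ σ * (K : ℝ) ^ (-τ) ≤ T * (n : ℝ) ^ (a * σ) * (2 ^ τ * (n : ℝ) ^ (-(b * τ))) := by gcongr
        _ = T * 2 ^ τ * ((n : ℝ) ^ (a * σ) * (n : ℝ) ^ (-(b * τ))) := by ring
        _ = T * 2 ^ τ * (n : ℝ) ^ (a * σ + -(b * τ)) := by rw [Real.rpow_add hn0]
        _ ≤ T * 2 ^ τ * z := by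
          rw [hz]
          gcongr
          linarith
    have h32 : 1 - T * 2 ^ τ * z ≤ ∑ k ∈ Finset.range (K + 1), w N k := by linarith
    have h33 : 8 * ((4 * A + Y) * z) ≤ 1 := by linarith
    have h34 : (1 - T * 2 ^ τ * z) * ((1 - (4 * A + Y) * z) * g n) ≤
        (∑ k ∈ Finset.range (K + 1), w N k) * ((1 - (4 * A + Y) * z) * g n) := by
      have h35 : 0 ≤ (1 - (4 * A + Y) * z) * g n := mul_nonneg (by linarith) hgn.le
      exact mul_le_mul_of_nonneg_right h32 h35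
    have h36 : 0 ≤ (T * 2 ^ τ * z) * ((4 * A + Y) * z) * g n := by positivity
    nlinarith
  calc D n ≤ _ := hmain
    _ ≤ 4 * (T * 2 ^ θ) * z * g n ^ 2 + 2 * g n * (((4 * A + Y) + T * 2 ^ τ) * z * g n) := by gcongr
    _ = (4 * (T * 2 ^ θ) + 2 * ((4 * A + Y) + T * 2 ^ τ)) * z * g n ^ 2 := by ring

/-- (C4): UPPER BOUND IN THE HALF PLANE. `h n` = number of half-plane walks, `s N k` = number of stopped bridges with `k`
vertices, `av N k l` = number of avoiding pairs of them, `d n` = number of avoiding pairs of half-plane walks. The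
exponents: any `a, b, c > 0` with `c ≤ β - b`, `c + a σ ≤ b τ`, `c ≤ a θ`. -/
theorem half_upper {h : ℕ → ℕ} {s : ℕ → ℕ → ℕ} {av : ℕ → ℕ → ℕ → ℕ} {d : ℕ → ℕ} {μ : ℝ} (hμ : 0 < μ)
    (hpos : ∀ n, 0 < h n) {A β a b c : ℝ} (hA : 0 < A) (hβ1 : β ≤ 1) (ha : 0 < a) (hb0 : 0 < b)
    (hc : 0 < c) (hcb : c ≤ β - b)
    (r4 : ∀ n : ℕ, 1 ≤ n → |(h (n + 4) : ℝ) / (μ ^ 4 * (h n : ℝ)) - 1| ≤ A / (n : ℝ) ^ β)
    (sodd : ∀ N k, 1 ≤ N → k % 2 = 1 → s N k = 0) (s12 : 1 ≤ s 1 2)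
    (hi : ∀ N n K : ℕ, 1 ≤ N → K ≤ n → ∑ k ∈ Finset.range (K + 1), s N k * h (n - k) ≤ h n)
    {T σ τ θ : ℝ} (hT : 0 < T) (hσ : 0 ≤ σ) (hτ : 0 < τ) (hθ : 0 ≤ θ) (hτc : c + a * σ ≤ b * τ) (hθc : c ≤ a * θ)
    (tail : ∀ N K : ℕ, 1 ≤ N → 1 ≤ K →
      1 - T * (N : ℝ) ^ σ * (K : ℝ) ^ (-τ) ≤ ∑ k ∈ Finset.range (K + 1), (s N k : ℝ) / μ ^ k)
    (avodd : ∀ N k l, 1 ≤ N → k % 2 = 1 ∨ l % 2 = 1 → av N k l = 0)
    (avs : ∀ N K : ℕ, 1 ≤ N →
      ∑ k ∈ Finset.range (K + 1), ∑ l ∈ Finset.range (K + 1), (av N k l : ℝ) / μ ^ (k + l) ≤ T * (N : ℝ) ^ (-θ))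
    (hii : ∀ N n K : ℕ, 1 ≤ N → K ≤ n →
      (d n : ℝ) ≤ ∑ k ∈ Finset.range (K + 1), ∑ l ∈ Finset.range (K + 1), (av N k l : ℝ) * h (n - k) * h (n - l) +
        2 * h n * (h n - ∑ k ∈ Finset.range (K + 1), (s N k : ℝ) * h (n - k))) :
    ∃ C : ℝ, 0 < C ∧ ∀ n : ℕ, 1 ≤ n → (d n : ℝ) / (h n : ℝ) ^ 2 ≤ C * (n : ℝ) ^ (-c) := by
  have hh : ∀ n, (0 : ℝ) < h n := fun n => by exact_mod_cast hpos n
  have hpow : ∀ n K k : ℕ, K ≤ n → k ∈ Finset.range (K + 1) → μ ^ n = μ ^ k * μ ^ (n - k) := by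
    intro n K k hK hk
    have := Finset.mem_range.1 hk
    rw [← pow_add]
    congr 1
    omega
  have e1 : ∀ n K : ℕ, K ≤ n → ∀ N, ∑ k ∈ Finset.range (K + 1), (s N k : ℝ) / μ ^ k * ((h (n - k) : ℝ) / μ ^ (n - k)) =
      (∑ k ∈ Finset.range (K + 1), (s N k : ℝ) * h (n - k)) / μ ^ n := by
    intro n K hK N
    rw [Finset.sum_div]
    refine Finset.sum_congr rfl fun k hk => ?_
    rw [hpow n K k hK hk]
    field_simp
  obtain ⟨C, hC, hfin⟩ := norm_upper (g := fun n => (h n : ℝ) / μ ^ n) (fun n => div_pos (hh n) (by positivity))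
    (A := A) (β := β) (a := a) (b := b) (c := c) hA (by linarith) hβ1 ha hb0 (by linarith) hc hcb
    (fun n hn => by
      have h1 := r4 n hn
      have h2 := hh n
      have e : (h (n + 4) : ℝ) / μ ^ (n + 4) / ((h n : ℝ) / μ ^ n) = (h (n + 4) : ℝ) / (μ ^ 4 * (h n : ℝ)) := by
        rw [pow_add]
        field_simp
      simp only [e]
      exact h1)
    (w := fun N k => (s N k : ℝ) / μ ^ k) (fun N k => by positivity)
    (fun N k hN hk => by simp [sodd N k hN hk])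
    (q := 1 / μ ^ 2) (by positivity) (by
      have : (1 : ℝ) ≤ s 1 2 := by exact_mod_cast s12
      gcongr)
    (fun N n K hN hK => by
      rw [e1 n K hK N]
      gcongr
      exact_mod_cast hi N n K hN hK)
    (T := T) (σ := σ) (τ := τ) (θ := θ) hT hσ hτ hθ hτc hθc tail
    (av := fun N k l => (av N k l : ℝ) / μ ^ (k + l)) (fun N k l => by positivity)
    (fun N k l hN hkl => by simp [avodd N k l hN hkl]) avs
    (D := fun n => (d n : ℝ) / μ ^ (2 * n))
    (fun N n K hN hK => by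
      have h1 := hii N n K hN hK
      have h2 : ∑ k ∈ Finset.range (K + 1), ∑ l ∈ Finset.range (K + 1),
          (av N k l : ℝ) / μ ^ (k + l) * ((h (n - k) : ℝ) / μ ^ (n - k)) * ((h (n - l) : ℝ) / μ ^ (n - l)) =
          (∑ k ∈ Finset.range (K + 1), ∑ l ∈ Finset.range (K + 1), (av N k l : ℝ) * h (n - k) * h (n - l)) /
            μ ^ (2 * n) := by
        rw [Finset.sum_div]
        refine Finset.sum_congr rfl fun k hk => ?_
        rw [Finset.sum_div]
        refine Finset.sum_congr rfl fun l hl => ?_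
        have hA := hpow n K k hK hk
        have hB := hpow n K l hK hl
        calc (av N k l : ℝ) / μ ^ (k + l) * ((h (n - k) : ℝ) / μ ^ (n - k)) * ((h (n - l) : ℝ) / μ ^ (n - l))
            = (av N k l : ℝ) * h (n - k) * h (n - l) / ((μ ^ k * μ ^ (n - k)) * (μ ^ l * μ ^ (n - l))) := by
              rw [pow_add]
              field_simp
          _ = _ := by rw [← hA, ← hB, two_mul, pow_add]
      rw [h2, e1 n K hK N]
      have h3 : 2 * ((h n : ℝ) / μ ^ n) * ((h n : ℝ) / μ ^ n -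
          (∑ k ∈ Finset.range (K + 1), (s N k : ℝ) * h (n - k)) / μ ^ n) =
          (2 * h n * (h n - ∑ k ∈ Finset.range (K + 1), (s N k : ℝ) * h (n - k))) / μ ^ (2 * n) := by
        rw [two_mul n, pow_add]
        field_simp
      rw [h3, ← add_div]
      gcongr)
  refine ⟨C, hC, fun n hn => ?_⟩
  have h1 := hfin n hn
  rw [div_le_iff₀ (by have := hh n; positivity)]
  have h2 : ((h n : ℝ) / μ ^ n) ^ 2 = (h n : ℝ) ^ 2 / μ ^ (2 * n) := by
    rw [div_pow, ← pow_mul, mul_comm n 2]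
  rw [h2, ← mul_div_assoc] at h1
  exact (div_le_div_iff_of_pos_right (by positivity)).1 h1

end Pool.Agent.RAT
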